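import Pool.Agent.W_7d29a1_h21g.PickB
import Pool.Agent.W_7d29a1_G.Soft1

/-!
Track G (B), instance. From a soft scale to a luck with positive probability. (helper21)
-/

namespace Pool.Agent.W_7d29a1_h21g

open MeasureTheory ProbabilityTheory Filter Topology
open Pool.Agent.W_7d29a1_F Pool.Agent.W_7d29a1_h60 Pool.Agent.W_7d29a1_L78 Pool.Agent.W_7d29a1_h4g Pool.Agent.W_7d29a1_G

noncomputable section

variable {μ : Measure ℝ} [IsProbabilityMeasure μ]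

/-- A bounded density under which the mean is large gives a probability (second moments). -/
theorem prob_of_density (hEM : Pool.Agent.W_7d29a1_h47.EM μ) {f V : Env → ℝ} (hfm : Measurable f) (hf0 : ∀ η, 0 ≤ f η)
    {D : ℝ} (hD : 0 < D) (hfD : ∀ η, f η ≤ D) (hf1 : ∫ η, f η ∂(law μ) = 1) (hV : Sub V) {Y M : ℝ} (hY : 0 < Y)
    (hM : 0 < M) (hM2 : ∫ η, (max (V η) 0) ^ 2 ∂(law μ) ≤ M ^ 2) (h : 2 * Y ≤ ∫ η, f η * V η ∂(law μ)) :
    (Y / (D * M)) ^ 2 ≤ (law μ).real {η | Y ≤ V η} := by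
  have hfS : Sub f := Sub.of_le hfm (Sub.const 0) (Sub.const D) hf0 hfD
  have hm : MeasurableSet {η | Y ≤ V η} := measurableSet_le measurable_const hV.1
  have hVp : Sub fun η => max (V η) 0 := hV.max (Sub.const 0)
  obtain ⟨t, ht⟩ : ∃ t : ℝ, t = M ^ 2 * D / Y := ⟨_, rfl⟩
  have ht0 : 0 < t := by rw [ht]; positivity
  have hpt : ∀ η, f η * V η ≤ Y * f η + D * ((max (V η) 0) ^ 2 * (1 / (2 * t)) + t / 2 * io (Y ≤ V η)) := by
    intro η
    have h0 := hf0 η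
    by_cases h1 : Y ≤ V η
    · rw [io_of h1, mul_one]
      have h2 : V η = max (V η) 0 := (max_eq_left (hY.le.trans h1)).symm
      rw [← h2]
      have h3 : V η ≤ (V η) ^ 2 * (1 / (2 * t)) + t / 2 := by
        have h4 : 0 ≤ (V η - t) ^ 2 * (1 / (2 * t)) := by positivity
        have h5 : (V η - t) ^ 2 * (1 / (2 * t)) = (V η) ^ 2 * (1 / (2 * t)) + t / 2 - V η := by
          field_simp
          ring
        linarith
      have hV0 : 0 ≤ V η := hY.le.trans h1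
      have h6 : f η * V η ≤ D * V η := mul_le_mul_of_nonneg_right (hfD η) hV0
      have h7 := mul_le_mul_of_nonneg_left h3 hD.le
      have h8 : 0 ≤ Y * f η := mul_nonneg hY.le h0
      linarith
    · have h2 : f η * V η ≤ f η * Y := mul_le_mul_of_nonneg_left (not_le.1 h1).le h0
      have h3 : 0 ≤ D * ((max (V η) 0) ^ 2 * (1 / (2 * t)) + t / 2 * io (Y ≤ V η)) := by
        have := io_nonneg (Y ≤ V η)
        positivity
      linarith [mul_comm (f η) Y]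
  have I1 : Integrable (fun η => f η * V η) (law μ) := Sub.mul_integrable hEM hfS hV
  have I2 : Integrable (fun η => (max (V η) 0) ^ 2) (law μ) := hVp.sq_integrable hEM
  have I3 : Integrable (fun η => io (Y ≤ V η)) (law μ) := (Sub_io hm).integrable hEM
  have I4 : Integrable (fun η => Y * f η) (law μ) := (hfS.integrable hEM).const_mul Y
  have I5 : Integrable (fun η => (max (V η) 0) ^ 2 * (1 / (2 * t)) + t / 2 * io (Y ≤ V η)) (law μ) :=
    (I2.mul_const _).add (I3.const_mul _)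
  have h1 := integral_mono I1 (I4.add (I5.const_mul D)) hpt
  simp only [Pi.add_apply] at h1
  rw [integral_add I4 (I5.const_mul D), integral_const_mul, integral_const_mul, hf1,
    integral_add (I2.mul_const _) (I3.const_mul _), integral_mul_const, integral_const_mul,
    integral_io_real hm] at h1
  obtain ⟨p, hp⟩ : ∃ p : ℝ, p = (law μ).real {η | Y ≤ V η} := ⟨_, rfl⟩
  rw [← hp] at h1 ⊢
  have h2 : (∫ η, (max (V η) 0) ^ 2 ∂(law μ)) * (1 / (2 * t)) ≤ M ^ 2 * (1 / (2 * t)) :=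
    mul_le_mul_of_nonneg_right hM2 (by positivity)
  have h3 : M ^ 2 * (1 / (2 * t)) = Y / (2 * D) := by
    rw [ht]
    field_simp
  have h4 : Y ≤ D * (Y / (2 * D) + t / 2 * p) := by
    have := mul_le_mul_of_nonneg_left (add_le_add_left (h2.trans h3.le) (t / 2 * p)) hD.le
    linarith
  have h5 : D * (Y / (2 * D) + t / 2 * p) = Y / 2 + (M ^ 2 * D ^ 2 / (2 * Y)) * p := by
    rw [ht]
    field_simp
  rw [h5] at h4
  have h6 : Y / 2 ≤ M ^ 2 * D ^ 2 / (2 * Y) * p := by linarith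
  have h7 : (Y / (D * M)) ^ 2 = (Y / 2) * (2 * Y / (M ^ 2 * D ^ 2)) := by
    field_simp
  rw [h7]
  calc Y / 2 * (2 * Y / (M ^ 2 * D ^ 2)) ≤ (M ^ 2 * D ^ 2 / (2 * Y) * p) * (2 * Y / (M ^ 2 * D ^ 2)) :=
        mul_le_mul_of_nonneg_right h6 (by positivity)
    _ = p := by field_simp

/-- A SOFT SCALE GIVES A LUCK WITH POSITIVE PROBABILITY (free end). `Cv` = second moment of the luck. -/
theorem luck_V (hEM : Pool.Agent.W_7d29a1_h47.EM μ) (hnd : Pool.Agent.W_7d29a1_h47.Nondeg μ) (α : ℝ) {K Cv : ℝ}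
    (hK : 0 < K) (hCv : 0 < Cv) : ∃ p U₀ : ℝ, 0 < p ∧ ∀ x : ℕ, U₀ ≤ EE μ (2 ^ x) → Sf μ x α →
      (∀ l : ℕ, (l : ℝ) ≤ (2 : ℝ) ^ ((x : ℝ) + α) →
        ∫ η, (max (V μ 0 η 0 l) 0) ^ 2 ∂(law μ) ≤ (Cv * EE μ (2 ^ x)) ^ 2) →
      ∃ l : ℕ, (l : ℝ) ≤ (2 : ℝ) ^ ((x : ℝ) + α) ∧ p ≤ (law μ).real {η | K * EE μ (2 ^ x) ≤ V μ 0 η 0 l} := by
  have h2a : (0 : ℝ) < 2 ^ α := Real.rpow_pos_of_pos two_pos _
  have h2b : (0 : ℝ) < 2 ^ (-α) := Real.rpow_pos_of_pos two_pos _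
  obtain ⟨U₀, D, hLA⟩ := la_law (μ := μ) (LAfor_all hEM hnd) (c := 2 ^ (-α)) (K := 2 * K + 2 ^ α) h2b (by positivity)
  refine ⟨(K / (max D 1 * Cv)) ^ 2, U₀, by positivity, fun x hU hS hV2 => ?_⟩
  obtain ⟨l, G, hl, hP, hG, hGV, hmean, hfl⟩ := hS
  obtain ⟨f, hfm, hf0, hfD, hf1, -, hfG⟩ := hLA (rows 0 l) G hP hG (EE μ (2 ^ x)) hU hfl
  refine ⟨l, hl, ?_⟩
  have hE := EE_pos (μ := μ) (2 ^ x)
  obtain ⟨E, hEdef⟩ : ∃ E : ℝ, E = EE μ (2 ^ x) := ⟨_, rfl⟩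
  rw [← hEdef] at hE hfG hmean hV2 ⊢
  have hfD' : ∀ η, f η ≤ max D 1 := fun η => (hfD η).trans (le_max_left _ _)
  have hD : (0 : ℝ) < max D 1 := lt_max_of_lt_right one_pos
  have hfS : Sub f := Sub.of_le hfm (Sub.const 0) (Sub.const (max D 1)) hf0 hfD'
  have hVS : Sub fun η => V μ 0 η 0 l := Sub_V _ _
  have hGS : Sub fun η => Real.log (G η) := hP.sub_log hG
  have h1 : ∫ η, f η * Real.log (G η) ∂(law μ) ≤ ∫ η, f η * V μ 0 η 0 l ∂(law μ) :=
    integral_mono (Sub.mul_integrable hEM hfS hGS) (Sub.mul_integrable hEM hfS hVS)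
      fun η => mul_le_mul_of_nonneg_left (hGV η) (hf0 η)
  have h2 : 2 * (K * E) ≤ ∫ η, f η * V μ 0 η 0 l ∂(law μ) := by
    have : (2 * K + 2 ^ α) * E = 2 * (K * E) + 2 ^ α * E := by ring
    linarith
  have h3 := prob_of_density hEM hfm hf0 hD hfD' hf1 hVS (Y := K * E) (M := Cv * E) (by positivity) (by positivity)
    (hV2 l hl) h2
  refine le_trans (le_of_eq ?_) h3
  congr 1
  rw [show max D 1 * (Cv * E) = (max D 1 * Cv) * E by ring, mul_div_mul_right _ _ hE.ne']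

end

end Pool.Agent.W_7d29a1_h21g
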