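import Pool.Agent.W_7d29a1_h21g.VTube
import Pool.Agent.W_7d29a1_h48.Core

/-!
Track G (B), instance. CORE LUCK: after a soft scale the axis is lucky by any number of units, by paths which stay in the tube
of the natural width, with positive probability. (helper21)
-/

namespace Pool.Agent.W_7d29a1_h21g

open MeasureTheory ProbabilityTheory Filter Topology
open Pool.Agent.W_7d29a1_F Pool.Agent.W_7d29a1_h60 Pool.Agent.W_7d29a1_h4g Pool.Agent.W_7d29a1_h95g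
open Pool.Agent.W_7d29a1_h57g Pool.Agent.W_7d29a1_G Pool.Agent.W_7d29a1_h48

variable {μ : Measure ℝ} [IsProbabilityMeasure μ]

/-- The natural width is at least of the order of the unit. -/
theorem EE_le_width (hμ : Pool.Agent.W_7d29a1_h47.EM μ) {n : ℕ} (h : vA μ 1 n < 1 / 2) :
    EE μ n ≤ 2 * J μ (1 / 2) * (vA μ 1 n * n) := by
  have hp := vA_pos hμ one_pos n
  have h1 := vA_eq' hμ zero_le_one h
  rw [one_mul] at h1
  have h2 := J_mul hμ (v := vA μ 1 n) (t := 1 / 2 / vA μ 1 n) hp.le (by rw [le_div_iff₀ hp]; linarith)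
    (by rw [div_mul_cancel₀ _ hp.ne'])
  rw [div_mul_cancel₀ _ hp.ne', div_mul_eq_mul_div, div_le_iff₀ hp] at h2
  have hn : (0 : ℝ) ≤ n := Nat.cast_nonneg n
  have h3 := mul_le_mul_of_nonneg_left h2 hn
  nlinarith

theorem width_tendsto (hμ : Pool.Agent.W_7d29a1_h47.EM μ) (hnd : Pool.Agent.W_7d29a1_h47.Nondeg μ)
    (hinf : Tendsto (EE μ) atTop atTop) : Tendsto (fun n : ℕ => vA μ 1 n * n) atTop atTop := by
  have hJ := J_pos hμ hnd (v := 1 / 2) (by norm_num) le_rfl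
  rw [tendsto_atTop]
  intro b
  filter_upwards [vA_lt_half hμ hnd (A := 1) zero_le_one, hinf.eventually_ge_atTop (2 * J μ (1 / 2) * b)] with n h1 h2
  have h3 := EE_le_width hμ h1
  have h4 : 2 * J μ (1 / 2) * b ≤ 2 * J μ (1 / 2) * (vA μ 1 n * n) := h2.trans h3
  exact le_of_mul_le_mul_left h4 (by positivity)

/-- The cost of a displacement at the distance `D` of the axis in the time `2 M`, `M = 2 ^ k n`. -/
theorem price (hμ : Pool.Agent.W_7d29a1_h47.EM μ) {n k : ℕ} (hn : 1 ≤ n) (h : vA μ 1 n < 1 / 2) {R : ℝ} {D : ℤ}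
    (hR : (2 : ℝ) ^ (k + 1) ≤ R) (hD : R * (vA μ 1 n * n) ≤ D) (hDM : D ≤ (2 ^ k * n : ℕ)) :
    R * EE μ n ≤ e μ 0 (2 * (2 ^ k * n)) (((2 ^ k * n : ℕ) : ℤ) + D) ∧
      R * EE μ n ≤ e μ 0 (2 * (2 ^ k * n)) (((2 ^ k * n : ℕ) : ℤ) - D) := by
  have hp := vA_pos hμ one_pos n
  have hn0 : (0 : ℝ) < n := by exact_mod_cast hn
  have hE := EE_pos (μ := μ) n
  have hq : (0 : ℝ) < 2 ^ (k + 1) := by positivity
  set M : ℕ := 2 ^ k * n with hMdef
  have hM1 : 1 ≤ M := Nat.one_le_iff_ne_zero.2 (by positivity)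
  have hMr : (M : ℝ) = 2 ^ k * n := by rw [hMdef]; push_cast; ring
  have hM2 : 2 * (M : ℝ) = 2 ^ (k + 1) * n := by rw [hMr, pow_succ]; ring
  have hM0 : (0 : ℝ) < 2 * M := by rw [hM2]; positivity
  have hD0 : (0 : ℝ) < D := lt_of_lt_of_le (by have := hq.trans_le hR; positivity) hD
  have hD0' : 0 < D := by exact_mod_cast hD0
  have hDM' : (D : ℝ) ≤ M := by exact_mod_cast hDM
  set v : ℝ := D / (2 * M) with hv
  have hv1 : R / 2 ^ (k + 1) * vA μ 1 n ≤ v := by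
    rw [hv, le_div_iff₀ hM0, hM2]
    have : R / 2 ^ (k + 1) * vA μ 1 n * (2 ^ (k + 1) * n) = R * (vA μ 1 n * n) := by
      field_simp
    rw [this]
    exact hD
  have hv2 : vA μ 1 n ≤ v := by
    refine le_trans ?_ hv1
    have : 1 ≤ R / 2 ^ (k + 1) := by rwa [one_le_div hq]
    nlinarith
  have hv3 : v ≤ 1 / 2 := by
    rw [hv, div_le_iff₀ hM0]
    linarith
  have h1 := J_line hμ one_pos h hv2 hv3
  have h2 : R * EE μ n ≤ 2 * M * J μ v := by
    have h3 : R / 2 ^ (k + 1) ≤ v / vA μ 1 n := by rwa [le_div_iff₀ hp]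
    have h4 : EE μ n * (R / 2 ^ (k + 1)) ≤ n * J μ v := by
      refine le_trans ?_ h1
      rw [one_mul]
      exact mul_le_mul_of_nonneg_left h3 hE.le
    rw [hM2]
    have h5 := mul_le_mul_of_nonneg_left h4 hq.le
    have h6 : (2 : ℝ) ^ (k + 1) * (EE μ n * (R / 2 ^ (k + 1))) = R * EE μ n := by field_simp
    rw [h6] at h5
    linarith
  constructor
  · have h3 := J_le_e hμ (n := 2 * M) (y := (M : ℤ) + D) (by omega) (by omega) (by push_cast; omega)
    refine h2.trans (le_trans (le_of_eq ?_) h3)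
    push_cast
    congr 2
    rw [hv]
    congr 1
    ring
  · have h3 := J_le_e hμ (n := 2 * M) (y := (M : ℤ) - D) (by omega) (by omega) (by push_cast; omega)
    refine h2.trans (le_trans (le_of_eq ?_) h3)
    push_cast
    rw [← J_neg hμ v]
    congr 2
    rw [hv, ← neg_div]
    congr 1
    ring

lemma WR_mono_set {R R' : Set Pt} (h : R ⊆ R') (η : Env) (a : Pt) (n : ℕ) (y : ℤ) :
    WR μ 0 R η a n y ≤ WR μ 0 R' η a n y :=
  mul_le_mul_of_nonneg_left (Zr_mono h η a n y) (Real.exp_pos _).le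

/-- **CORE LUCK.** -/
theorem core_luck (hEM : Pool.Agent.W_7d29a1_h47.EM μ) (hnd : Pool.Agent.W_7d29a1_h47.Nondeg μ)
    (hinf : Tendsto (EE μ) atTop atTop)
    {Cl : ℝ} {n₀ : ℕ} (hlog : ∀ n : ℕ, n₀ ≤ n → Real.log (n + 1) ≤ Cl * EE μ n) {a1 : ℝ}
    (hPL : ∃ k : ℕ, ∀ K : ℝ, ∃ (p : ℝ) (x₀ : ℕ), 0 < p ∧ ∀ x : ℕ, x₀ ≤ x → Sf μ x a1 →
      p ≤ (law μ).real {η | K * EE μ (2 ^ (x + k)) ≤ -X μ 0 η 0 (2 ^ (x + k)) (md (2 ^ (x + k)))}) :
    ∃ T : ℕ, ∀ K : ℝ, ∃ (p R : ℝ) (x₀ : ℕ), 0 < p ∧ 0 < R ∧ ∀ y : ℕ, x₀ ≤ y → Sf μ y a1 →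
      ∃ M : ℕ, 0 < M ∧ Even M ∧ M = 2 ^ T * 2 ^ y ∧
        p ≤ (law μ).real {η | Ev μ (R * (vA μ 1 (2 ^ y) * 2 ^ y)) (K * EE μ (2 ^ y)) M 0 η} := by
  obtain ⟨k, hk⟩ := hPL
  refine ⟨k, fun K => ?_⟩
  obtain ⟨p, x₀, hp, hx⟩ := hk (max K 0 + 1)
  obtain ⟨T1, C1, hr⟩ := rare_of_price hEM hnd (p := p / 16) (by positivity)
  set q : ℝ := 2 ^ (k + 1) with hq
  have hq1 : 1 ≤ q := one_le_pow₀ (by norm_num)
  have hT1 : (0 : ℝ) < 2 ^ T1 := by positivity
  have hCl := le_max_right Cl 0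
  have hC1 := le_max_right C1 0
  set R0 : ℝ := q * (2 * (max Cl 0 + 2) + 6 * 2 ^ T1) + max C1 0 + 1 with hR0
  have hR0q : q ≤ R0 := by
    rw [hR0]
    nlinarith
  have hR0p : 0 < R0 := by linarith
  obtain ⟨y₁, hy₁⟩ : ∃ y₁ : ℕ, ∀ y ≥ y₁, vA μ 1 (2 ^ y) < 1 / 2 ∧ R0 * vA μ 1 (2 ^ y) ≤ 1 / 2 ∧
      2 ≤ vA μ 1 (2 ^ y) * ((2 ^ y : ℕ) : ℝ) := by
    have ht : Tendsto (fun y : ℕ => (2 : ℕ) ^ y) atTop atTop := tendsto_pow_atTop_atTop_of_one_lt one_lt_two
    have e1 := (ht.eventually (vA_lt_half hEM hnd (A := 1) zero_le_one))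
    have e2 : ∀ᶠ n : ℕ in atTop, vA μ 1 n < 1 / (2 * R0) :=
      (vA_tendsto hEM hnd zero_le_one).eventually (eventually_lt_nhds (by positivity))
    have e3 := ht.eventually e2
    have e4 := ht.eventually ((width_tendsto hEM hnd hinf).eventually_ge_atTop 2)
    obtain ⟨y₁, h⟩ := eventually_atTop.1 (e1.and (e3.and e4))
    refine ⟨y₁, fun y hy => ⟨(h y hy).1, ?_, (h y hy).2.2⟩⟩
    have h2 := (h y hy).2.1.le
    rw [le_div_iff₀ (by positivity)] at h2
    linarith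
  refine ⟨p / 2, R0 + 1, max (max x₀ y₁) (max n₀ 1), by positivity, by positivity, fun y hy hS => ?_⟩
  have hyx : x₀ ≤ y := by omega
  have hyy : y₁ ≤ y := by omega
  have hyn : n₀ ≤ y := by omega
  have hy1 : 1 ≤ y := by omega
  obtain ⟨g1, g2, g3⟩ := hy₁ y hyy
  have hpl := hx y hyx hS
  have hME : (2 : ℕ) ^ (y + k) = 2 ^ k * 2 ^ y := by rw [pow_add, mul_comm]
  rw [hME] at hpl
  set n : ℕ := 2 ^ y with hn
  have hn2 : 2 ≤ n := by
    rw [hn]
    calc 2 = 2 ^ 1 := rfl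
      _ ≤ 2 ^ y := Nat.pow_le_pow_right (by norm_num) hy1
  have hnr : ((n : ℕ) : ℝ) = 2 ^ y := by rw [hn]; push_cast; ring
  set M : ℕ := 2 ^ k * n with hM
  have hMn : n ≤ M := Nat.le_mul_of_pos_left n (by positivity)
  have hMe : Even M := by
    rw [hM, hn]
    exact (Nat.even_pow.2 ⟨even_two, by omega⟩).mul_left _
  have hMr : 2 * (M : ℝ) = q * n := by rw [hM, hq, pow_succ]; push_cast; ring
  have hn0 : (0 : ℝ) < n := by exact_mod_cast (by omega : 0 < n)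
  have hE1 := one_le_EE (μ := μ) n
  have hvp := vA_pos hEM one_pos n
  -- the unit at the time `2 M`
  have hE2 : EE μ (2 * M) ≤ q * EE μ n := by
    have h1 := EE_mul hEM (2 ^ (k + 1)) n (Nat.one_le_two_pow)
    have h2 : 2 * M = 2 ^ (k + 1) * n := by rw [hM, pow_succ]; ring
    rw [h2, hq]
    exact_mod_cast h1
  have hE3 : EU μ 0 md (2 ^ T1 * (2 * M)) ≤ 2 ^ T1 * (q * EE μ n) := by
    have h1 := EE_mul hEM (2 ^ T1) (2 * M) (Nat.one_le_two_pow)
    have h2 : EE μ (2 ^ T1 * (2 * M)) ≤ 2 ^ T1 * EE μ (2 * M) := by exact_mod_cast h1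
    exact h2.trans (mul_le_mul_of_nonneg_left hE2 hT1.le)
  have hl : Real.log (2 * M) ≤ max Cl 0 * EE μ (2 * M) := by
    have h1 := hlog (2 * M) (by
      have : y < 2 ^ y := Nat.lt_two_pow_self
      omega)
    have h2 : Real.log (2 * M) ≤ Real.log (((2 * M : ℕ) : ℝ) + 1) := by
      apply Real.log_le_log
      · have : (0 : ℝ) < M := by exact_mod_cast (by omega : 0 < M)
        linarith
      · push_cast
        linarith
    have h3 := EE_pos (μ := μ) (2 * M)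
    have h4 : Cl * EE μ (2 * M) ≤ max Cl 0 * EE μ (2 * M) := mul_le_mul_of_nonneg_right (le_max_left _ _) h3.le
    linarith
  -- the distance
  set w : ℝ := vA μ 1 n * n with hw
  set D : ℤ := ⌈R0 * w⌉ with hD
  have hD1 : R0 * w ≤ D := Int.le_ceil _
  have hD2 : (D : ℝ) < R0 * w + 1 := Int.ceil_lt_add_one _
  have hD0 : 0 < D := by
    have : (0 : ℝ) < D := lt_of_lt_of_le (by positivity) hD1
    exact_mod_cast this
  have hDM : D ≤ (M : ℤ) := by
    have h1 : R0 * w ≤ n / 2 := by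
      rw [hw, ← mul_assoc]
      have := mul_le_mul_of_nonneg_right g2 hn0.le
      linarith
    have h2 : (D : ℝ) < n / 2 + 1 := by linarith
    have h3 : (n : ℝ) / 2 + 1 ≤ n := by
      have : (2 : ℝ) ≤ n := by exact_mod_cast hn2
      linarith
    have h4 : (D : ℝ) < (n : ℤ) := by push_cast; linarith
    have h5 : D < (n : ℤ) := by exact_mod_cast h4
    have h6 : (n : ℤ) ≤ M := by exact_mod_cast hMn
    omega
  obtain ⟨pr1, pr2⟩ := price (μ := μ) hEM (n := n) (k := k) (by omega) g1 (R := R0) (D := D) hR0q hD1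
    (by rw [← hM]; exact hDM)
  rw [← hM] at pr1 pr2
  have hA : ∀ m ≤ 2 * M, ep μ m (md m) ≤ EE μ (2 * M) := fun m hm => by
    have := ep_le_EE (μ := μ) hm
    linarith
  have hu : max (max (2 * (Real.log (2 * M) + 2 * EE μ (2 * M))) C1) (6 * EU μ 0 md (2 ^ T1 * (2 * M))) <
      R0 * EE μ n := by
    have hexp : R0 * EE μ n = 2 * (max Cl 0 + 2) * (q * EE μ n) + 6 * 2 ^ T1 * (q * EE μ n) +
        max C1 0 * EE μ n + EE μ n := by rw [hR0]; ring
    have i1 : 0 < q * EE μ n := by positivity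
    have i2 : 0 ≤ 6 * 2 ^ T1 * (q * EE μ n) := by positivity
    have i3 : 0 ≤ max C1 0 * EE μ n := by positivity
    have i4 : 0 ≤ 2 * (max Cl 0 + 2) * (q * EE μ n) := by positivity
    refine max_lt (max_lt ?_ ?_) ?_
    · have h1 : Real.log (2 * M) + 2 * EE μ (2 * M) ≤ (max Cl 0 + 2) * (q * EE μ n) := by
        have := mul_le_mul_of_nonneg_left hE2 (by linarith : 0 ≤ max Cl 0 + 2)
        linarith
      linarith
    · have h1 : C1 ≤ max C1 0 * EE μ n := by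
        have h2 := le_max_left C1 0
        nlinarith
      linarith
    · linarith
  have x1 := hr 0 md (fun m => ⟨md_nonneg m, md_le m⟩) (2 * M) ((M : ℤ) + D) _ (hu.trans_le pr1)
  have x2 := hr 0 md (fun m => ⟨md_nonneg m, md_le m⟩) (2 * M) ((M : ℤ) - D) _ (hu.trans_le pr2)
  have hlog0 : 0 ≤ Real.log (2 * M) := Real.log_nonneg (by
    have : (1 : ℝ) ≤ M := by exact_mod_cast (by omega : 1 ≤ M)
    linarith)
  have hvt := vert_tube (μ := μ) hEM hMe hD0 (Y := Real.log (2 * M)) (EE_pos (2 * M)) hA x1 x2 (by linarith)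
  refine ⟨M, by omega, hMe, rfl, ?_⟩
  have hb : Tb (vl (-D)) (vl D) ⊆ tub 0 ((R0 + 1) * (vA μ 1 n * 2 ^ y)) := by
    intro z hz
    have h1 : vl (-D) z.1 < z.2 := hz.1
    have h2 : z.2 < vl D z.1 := hz.2
    unfold vl at h1 h2
    show |((z.2 - (0 : Pt).2 : ℤ) : ℝ) - ((z.1 - (0 : Pt).1 : ℤ) : ℝ) / 2| ≤ _
    simp only [Prod.fst_zero, Prod.snd_zero, sub_zero]
    rw [← hnr, ← hw]
    have h3 : 2 * z.2 < z.1 + 2 * D := by omega
    have h4 : z.1 - 2 * D < 2 * z.2 := by omega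
    have h3' : 2 * (z.2 : ℝ) < z.1 + 2 * D := by exact_mod_cast h3
    have h4' : (z.1 : ℝ) - 2 * D < 2 * z.2 := by exact_mod_cast h4
    have h5 : (R0 + 1) * w = R0 * w + w := by ring
    rw [abs_le, h5]
    constructor <;> linarith
  have hsub : {η | (max K 0 + 1) * EE μ M ≤ -X μ 0 η 0 M (md M)} ⊆
      {η | Ev μ ((R0 + 1) * (vA μ 1 n * 2 ^ y)) (K * EE μ n) M 0 η} ∪
        {η | ¬ W μ 0 η 0 M ((M : ℤ) / 2) ≤ WR μ 0 (Tb (vl (-D)) (vl D)) η 0 M ((M : ℤ) / 2) + 1} := by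
    intro η hη
    by_cases hc : W μ 0 η 0 M ((M : ℤ) / 2) ≤ WR μ 0 (Tb (vl (-D)) (vl D)) η 0 M ((M : ℤ) / 2) + 1
    · left
      have h1 : (max K 0 + 1) * EE μ M ≤ Real.log (W μ 0 η 0 M ((M : ℤ) / 2)) := by
        have h := hη
        simp only [Set.mem_ofPred_eq] at h
        unfold X at h
        rwa [neg_neg] at h
      have hMono : EE μ n ≤ EE μ M := EE_mono hMn
      have hK := le_max_right K 0
      have h2 : max K 0 * EE μ n + 1 ≤ Real.log (W μ 0 η 0 M ((M : ℤ) / 2)) := by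
        have h3 := mul_le_mul_of_nonneg_left hMono (by linarith : 0 ≤ max K 0 + 1)
        linarith
      have hWp : 0 < W μ 0 η 0 M ((M : ℤ) / 2) := W_pos (μ := μ) (s := 0) η 0 (by omega) (by omega)
      have h3 : Real.exp (max K 0 * EE μ n + 1) ≤ W μ 0 η 0 M ((M : ℤ) / 2) := by
        rw [← Real.exp_log hWp]
        exact Real.exp_le_exp.2 h2
      have h4 : Real.exp (max K 0 * EE μ n) ≤ WR μ 0 (Tb (vl (-D)) (vl D)) η 0 M ((M : ℤ) / 2) := by
        rw [Real.exp_add] at h3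
        have h5 : 1 ≤ Real.exp (max K 0 * EE μ n) := Real.one_le_exp (by positivity)
        have h6 : (2 : ℝ) ≤ Real.exp 1 := by
          have := Real.add_one_le_exp (1 : ℝ)
          linarith
        nlinarith
      have h5 := h4.trans (WR_mono_set (μ := μ) hb η 0 M ((M : ℤ) / 2))
      show K * EE μ n ≤ Real.log (WR μ 0 (tub 0 ((R0 + 1) * (vA μ 1 n * 2 ^ y))) η 0 M ((M : ℤ) / 2))
      have h6 : K * EE μ n ≤ max K 0 * EE μ n := mul_le_mul_of_nonneg_right (le_max_left _ _) (by linarith)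
      refine h6.trans ?_
      rw [Real.le_log_iff_exp_le (lt_of_lt_of_le (Real.exp_pos _) h5)]
      exact h5
    · right
      exact hc
  have h1 := (measureReal_mono (μ := law μ) hsub).trans (measureReal_union_le _ _)
  linarith

end Pool.Agent.W_7d29a1_h21g
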