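import Pool.Agent.W_7d29a1_h21g.Place
import Pool.Agent.W_7d29a1_h21g.CoreT
import Pool.Agent.W_7d29a1_G.FrDefs
import Pool.Agent.W_7d29a1_h18.HEU

/-!
Track G (B), instance: the frame statements `FIn`, `FTilt` give what `place_luck` needs; place luck and core luck from them.
(helper21)
-/

namespace Pool.Agent.W_7d29a1_h21g

open MeasureTheory ProbabilityTheory Filter Topology
open Pool.Agent.W_7d29a1_F Pool.Agent.W_7d29a1_h60 Pool.Agent.W_7d29a1_h4g Pool.Agent.W_7d29a1_G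
open Pool.Agent.W_7d29a1_h48

noncomputable section

variable {μ : Measure ℝ} [IsProbabilityMeasure μ]

/-- The tilted sum of the end weights. -/
def ts (μ : Measure ℝ) (a : ℝ) (m : ℕ) (η : Env) : ℝ :=
  ∑ y ∈ Finset.Icc (0 : ℤ) m, W μ 0 η 0 m y * Real.exp (a * |(y : ℝ) - m / 2|)

lemma Sub_ts (a : ℝ) (m : ℕ) : Sub fun η => Real.log (ts μ a m η) := by
  have h := Sub_logsum (μ := μ) (s := 0) 0 (n := m) (A := Finset.Icc (0 : ℤ) m)
    (fun y => Real.exp (a * |(y : ℝ) - m / 2|)) (fun _ => Real.exp_pos _) ⟨0, by simp, le_rfl, by positivity⟩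
  have e : (fun η : Env => Real.log (ts μ a m η)) = fun η => Real.log (∑ y ∈ Finset.Icc (0 : ℤ) m,
      Real.exp (a * |(y : ℝ) - m / 2|) * W μ 0 η 0 m y) := by
    funext η
    unfold ts
    congr 1
    exact Finset.sum_congr rfl fun y _ => mul_comm _ _
  rw [e]
  exact h

lemma ts_pos (a : ℝ) (m : ℕ) (η : Env) : 0 < ts μ a m η := by
  have h0 : (0 : ℤ) ∈ Finset.Icc (0 : ℤ) m := by simp
  have h1 : 0 < W μ 0 η 0 m 0 * Real.exp (a * |((0 : ℤ) : ℝ) - m / 2|) :=
    mul_pos (W_pos (μ := μ) (s := 0) η 0 le_rfl (by positivity)) (Real.exp_pos _)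
  refine lt_of_lt_of_le h1 (Finset.single_le_sum (f := fun y : ℤ => W μ 0 η 0 m y * Real.exp (a * |(y : ℝ) - m / 2|))
    (fun y _ => mul_nonneg (W_nonneg _ _ _ _) (Real.exp_pos _).le) h0)

lemma V_le_ts {a : ℝ} (ha : 0 ≤ a) (m : ℕ) (η : Env) : V μ 0 η 0 m ≤ Real.log (ts μ a m η) := by
  unfold V
  refine Real.log_le_log ?_ ?_
  · unfold WS
    have h0 : (0 : ℤ) ∈ Finset.Icc (0 : ℤ) m := by simp
    exact lt_of_lt_of_le (W_pos (μ := μ) (s := 0) η 0 le_rfl (by positivity))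
      (Finset.single_le_sum (f := fun y : ℤ => W μ 0 η 0 m y) (fun y _ => W_nonneg _ _ _ _) h0)
  · unfold WS ts
    refine Finset.sum_le_sum fun y _ => ?_
    have h1 : 1 ≤ Real.exp (a * |(y : ℝ) - m / 2|) := Real.one_le_exp (by positivity)
    have h2 : 0 ≤ W μ 0 η 0 m y := W_nonneg _ _ _ _
    nlinarith

lemma far_le_ts {a : ℝ} (m : ℕ) {η : Env} {y : ℤ} (hy : y ∈ Finset.Icc (0 : ℤ) m) (hW : 0 ≤ -X μ 0 η 0 m y) :
    a * |(y : ℝ) - m / 2| ≤ Real.log (ts μ a m η) := by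
  have hb := Finset.mem_Icc.1 hy
  have hWp : 0 < W μ 0 η 0 m y := W_pos (μ := μ) (s := 0) η 0 hb.1 hb.2
  have h1 : 1 ≤ W μ 0 η 0 m y := by
    unfold X at hW
    rw [neg_neg] at hW
    rw [← Real.exp_log hWp]
    exact Real.one_le_exp hW
  rw [Real.le_log_iff_exp_le (ts_pos a m η)]
  have h2 : Real.exp (a * |(y : ℝ) - m / 2|) ≤ W μ 0 η 0 m y * Real.exp (a * |(y : ℝ) - m / 2|) := by
    have := Real.exp_pos (a * |(y : ℝ) - m / 2|)
    nlinarith
  exact h2.trans (Finset.single_le_sum (f := fun y : ℤ => W μ 0 η 0 m y * Real.exp (a * |(y : ℝ) - m / 2|))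
    (fun y _ => mul_nonneg (W_nonneg _ _ _ _) (Real.exp_pos _).le) hy)

/-- The frame at every scale. -/
theorem frP_of (hEM : Pool.Agent.W_7d29a1_h47.EM μ) (hnd : Pool.Agent.W_7d29a1_h47.Nondeg μ) (hIn : FIn μ)
    (hT : FTilt μ) : ∃ (C c : ℝ) (n₀ : ℕ), 0 < C ∧ 0 < c ∧ ∀ n : ℕ, n₀ ≤ n → ∃ w : ℕ, FrP μ C c n w (EE μ n) := by
  obtain ⟨c₀, hc₀, hI⟩ := hIn
  obtain ⟨C1, n1, hI⟩ := hI 1
  obtain ⟨c, C2, n2, hc, hT⟩ := hT 1
  have hinf := Pool.Agent.W_7d29a1_h18.EE_tendsto hEM hnd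
  set b : ℝ := min c₀ (1 / 2) with hb
  have hb0 : 0 < b := lt_min hc₀ (by norm_num)
  have hbc : b ≤ c₀ := min_le_left _ _
  have hb2 : b ≤ 1 / 2 := min_le_right _ _
  obtain ⟨n3, hn3⟩ := eventually_atTop.1 ((width_tendsto hEM hnd hinf).eventually_ge_atTop (2 / b))
  have hC2 : 0 ≤ C2 := by
    have h := hT n2 le_rfl 0 (by omega)
    exact le_trans (integral_nonneg fun η => (Real.exp_pos _).le) h
  -- the constant
  set C : ℝ := max (max C1 0 + 1) (max (2 * (C2 + 1) / c ^ 2 + 1) (C2 + 1)) with hC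
  have hC0 : 0 < C := by
    have : max C1 0 + 1 ≤ C := le_max_left _ _
    have := le_max_right C1 0
    linarith
  refine ⟨C, c ^ 2 * b / 2, max (max n1 n2) n3, hC0, by positivity, fun n hn => ?_⟩
  have h1n : n1 ≤ n := by omega
  have h2n : n2 ≤ n := by omega
  have h3n := hn3 n (by omega)
  have hE1 := one_le_EE (μ := μ) n
  have hE := EE_pos (μ := μ) n
  set x : ℝ := vA μ 1 n * n with hx
  have hx0 : 0 < x := lt_of_lt_of_le (by positivity) h3n
  have hbx : 2 ≤ b * x := by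
    rw [div_le_iff₀ hb0] at h3n
    linarith
  have hxn : x ≤ n / 2 := by
    rw [hx]
    have := vA_le hEM zero_le_one n
    have h0 : (0 : ℝ) ≤ n := Nat.cast_nonneg n
    nlinarith
  set w : ℕ := ⌊b * x⌋₊ with hw
  have hw1 : (w : ℝ) ≤ b * x := Nat.floor_le (by positivity)
  have hw2 : b * x / 2 ≤ w := by
    have := Nat.lt_floor_add_one (b * x)
    linarith
  have hw3 : 1 ≤ w := by
    have h : (0 : ℝ) < w := by linarith
    exact_mod_cast (by exact_mod_cast h : 0 < w)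
  have hw4 : w ≤ n / 2 := by
    have h : (w : ℝ) * 2 ≤ n := by nlinarith
    have h' : w * 2 ≤ n := by exact_mod_cast h
    omega
  have hwA : 0 < wA μ n := hx0
  have ha : 0 < c * EE μ n / wA μ n := by positivity
  have hIc : ∀ m ≤ n, Integrable (fun η => Real.exp (c / EE μ n * Real.log (ts μ (c * EE μ n / wA μ n) m η)))
      (law μ) := fun m _ => ((Sub_ts _ m).const_mul _).exp_int hEM
  have hTi : ∀ m ≤ n, ∫ η, Real.exp (c / EE μ n * Real.log (ts μ (c * EE μ n / wA μ n) m η)) ∂(law μ) ≤ C2 :=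
    fun m hm => hT n h2n m (by omega)
  refine ⟨w, hw3, hw4, fun y hy => ?_, fun l hl => ?_, fun l hl k => ?_⟩
  · have hy' := abs_le.1 hy
    have hwn : 2 * (w : ℤ) ≤ n := by omega
    have h0 : 0 ≤ y := by omega
    have h1 : y ≤ n := by omega
    have h2 : |(y : ℝ) - n / 2| ≤ w + 1 / 2 := by
      have e1 : 2 * y - n ≤ 2 * w + 1 := by omega
      have e2 : -(2 * w + 1 : ℤ) ≤ 2 * y - n := by omega
      have e1' : 2 * (y : ℝ) - n ≤ 2 * w + 1 := by exact_mod_cast e1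
      have e2' : -(2 * (w : ℝ) + 1) ≤ 2 * y - n := by exact_mod_cast e2
      rw [abs_le]
      constructor <;> linarith
    have h3 := hI n h1n n y (by omega) h0 h1 (by
      have : b * x ≤ c₀ * vA μ 1 n * n := by
        rw [mul_assoc, ← hx]
        exact mul_le_mul_of_nonneg_right hbc hx0.le
      linarith)
    have h4 : C1 * EE μ n ≤ C * EE μ n := by
      refine mul_le_mul_of_nonneg_right ?_ hE.le
      have : max C1 0 + 1 ≤ C := le_max_left _ _
      have := le_max_left C1 0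
      linarith
    exact h3.trans h4
  · -- the second moment of the luck
    have hpt : ∀ η, (max (V μ 0 η 0 l) 0) ^ 2 ≤ 2 / (c / EE μ n) ^ 2 *
        (Real.exp (c / EE μ n * Real.log (ts μ (c * EE μ n / wA μ n) l η)) + 1) := by
      intro η
      have hθ : 0 < c / EE μ n := by positivity
      have h1 := V_le_ts (μ := μ) ha.le l η
      set v := max (V μ 0 η 0 l) 0 with hv
      have hv0 : 0 ≤ v := le_max_right _ _
      have h2 : (c / EE μ n * v) ^ 2 / 2 ≤ Real.exp (c / EE μ n * v) := by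
        have := Real.quadratic_le_exp_of_nonneg (x := c / EE μ n * v) (by positivity)
        have h0 : 0 ≤ c / EE μ n * v := by positivity
        linarith
      have h3 : Real.exp (c / EE μ n * v) ≤
          Real.exp (c / EE μ n * Real.log (ts μ (c * EE μ n / wA μ n) l η)) + 1 := by
        rcases le_total 0 (V μ 0 η 0 l) with h | h
        · rw [hv, max_eq_left h]
          have h4 : Real.exp (c / EE μ n * V μ 0 η 0 l) ≤
              Real.exp (c / EE μ n * Real.log (ts μ (c * EE μ n / wA μ n) l η)) :=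
            Real.exp_le_exp.2 (mul_le_mul_of_nonneg_left h1 hθ.le)
          linarith
        · rw [hv, max_eq_right h, mul_zero, Real.exp_zero]
          have := Real.exp_pos (c / EE μ n * Real.log (ts μ (c * EE μ n / wA μ n) l η))
          linarith
      rw [div_mul_eq_mul_div, le_div_iff₀ (by positivity)]
      have h5 : v ^ 2 * (c / EE μ n) ^ 2 = 2 * ((c / EE μ n * v) ^ 2 / 2) := by ring
      rw [h5]
      linarith
    have hi1 : Integrable (fun η => 2 / (c / EE μ n) ^ 2 *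
        (Real.exp (c / EE μ n * Real.log (ts μ (c * EE μ n / wA μ n) l η)) + 1)) (law μ) :=
      ((hIc l hl).add (integrable_const 1)).const_mul _
    have h1 : ∫ η, (max (V μ 0 η 0 l) 0) ^ 2 ∂(law μ) ≤ ∫ η, 2 / (c / EE μ n) ^ 2 *
        (Real.exp (c / EE μ n * Real.log (ts μ (c * EE μ n / wA μ n) l η)) + 1) ∂(law μ) :=
      integral_mono_of_nonneg (Eventually.of_forall fun η => by positivity) hi1 (Eventually.of_forall hpt)
    rw [integral_const_mul, integral_add (hIc l hl) (integrable_const 1)] at h1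
    simp only [integral_const, probReal_univ, smul_eq_mul, mul_one] at h1
    have h2 : 2 / (c / EE μ n) ^ 2 * (∫ η, Real.exp (c / EE μ n *
        Real.log (ts μ (c * EE μ n / wA μ n) l η)) ∂(law μ) + 1) ≤ 2 / (c / EE μ n) ^ 2 * (C2 + 1) := by
      refine mul_le_mul_of_nonneg_left ?_ (by positivity)
      linarith [hTi l hl]
    have h3 : 2 / (c / EE μ n) ^ 2 * (C2 + 1) = 2 * (C2 + 1) / c ^ 2 * EE μ n ^ 2 := by
      field_simp
    have h4 : 2 * (C2 + 1) / c ^ 2 ≤ C ^ 2 := by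
      have h5 : 2 * (C2 + 1) / c ^ 2 + 1 ≤ C := (le_max_left _ _).trans (le_max_right _ _)
      have h6 : 0 ≤ 2 * (C2 + 1) / c ^ 2 := by positivity
      nlinarith
    rw [mul_pow]
    have h7 : 2 * (C2 + 1) / c ^ 2 * EE μ n ^ 2 ≤ C ^ 2 * EE μ n ^ 2 :=
      mul_le_mul_of_nonneg_right h4 (by positivity)
    linarith
  · -- the far end points
    have hθ : 0 < c / EE μ n := by positivity
    have hsub : {η : Env | ∃ b ∈ Finset.Icc (0 : ℤ) l, k * w < |b - (l : ℤ) / 2| ∧ 0 ≤ -X μ 0 η 0 l b} ⊆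
        {η | Real.exp (c ^ 2 * b / 2 * k) ≤
          Real.exp (c / EE μ n * Real.log (ts μ (c * EE μ n / wA μ n) l η))} := by
      rintro η ⟨y, hy, hk, hX⟩
      have h1 := far_le_ts (μ := μ) (a := c * EE μ n / wA μ n) l hy hX
      have h2 : (k : ℝ) * w ≤ |(y : ℝ) - l / 2| := by
        rcases abs_cases (y - (l : ℤ) / 2) with ⟨h, _⟩ | ⟨h, _⟩
        · rw [h] at hk
          have h3 : 2 * ((k : ℤ) * w) ≤ 2 * y - l := by omega
          have h3' : 2 * ((k : ℝ) * w) ≤ 2 * y - l := by exact_mod_cast h3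
          refine le_trans ?_ (le_abs_self _)
          linarith
        · rw [h] at hk
          have h3 : 2 * ((k : ℤ) * w) ≤ l - 2 * y := by omega
          have h3' : 2 * ((k : ℝ) * w) ≤ l - 2 * y := by exact_mod_cast h3
          refine le_trans ?_ (neg_le_abs _)
          linarith
      show Real.exp _ ≤ Real.exp _
      refine Real.exp_le_exp.2 ?_
      have h3 : c ^ 2 * b / 2 * k ≤ c / EE μ n * (c * EE μ n / wA μ n * |(y : ℝ) - l / 2|) := by
        have h4 : c / EE μ n * (c * EE μ n / wA μ n * |(y : ℝ) - l / 2|) =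
            c ^ 2 * (|(y : ℝ) - l / 2| / wA μ n) := by
          field_simp
        rw [h4]
        have h5 : b / 2 * k ≤ |(y : ℝ) - l / 2| / wA μ n := by
          rw [le_div_iff₀ hwA]
          have h6 : (k : ℝ) * (b * x / 2) ≤ k * w := mul_le_mul_of_nonneg_left hw2 (Nat.cast_nonneg k)
          have h7 : b / 2 * k * wA μ n = k * (b * x / 2) := by
            show b / 2 * k * (vA μ 1 n * n) = _
            rw [← hx]
            ring
          rw [h7]
          linarith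
        have h8 := mul_le_mul_of_nonneg_left h5 (by positivity : 0 ≤ c ^ 2)
        linarith
      exact h3.trans (mul_le_mul_of_nonneg_left h1 hθ.le)
    have hmk := mul_meas_ge_le_integral_of_nonneg (μ := law μ)
      (f := fun η => Real.exp (c / EE μ n * Real.log (ts μ (c * EE μ n / wA μ n) l η)))
      (Eventually.of_forall fun η => (Real.exp_pos _).le) (hIc l hl) (Real.exp (c ^ 2 * b / 2 * k))
    have h1 := measureReal_mono (μ := law μ) hsub
    have h2 := hTi l hl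
    have h3 : (law μ).real {η | Real.exp (c ^ 2 * b / 2 * k) ≤
        Real.exp (c / EE μ n * Real.log (ts μ (c * EE μ n / wA μ n) l η))} ≤ C2 * Real.exp (-(c ^ 2 * b / 2 * k)) := by
      rw [Real.exp_neg, ← div_eq_mul_inv, le_div_iff₀ (Real.exp_pos _)]
      have h4 := hmk.trans h2
      linarith
    have h5 : C2 * Real.exp (-(c ^ 2 * b / 2 * k)) ≤ C * Real.exp (-(c ^ 2 * b / 2 * k)) := by
      refine mul_le_mul_of_nonneg_right ?_ (Real.exp_pos _).le
      have : C2 + 1 ≤ C := (le_max_right _ _).trans (le_max_right _ _)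
      linarith
    exact h1.trans (h3.trans h5)

/-- `log (n + 1) ≤ EE μ n` eventually. -/
theorem log_le_EE (hEM : Pool.Agent.W_7d29a1_h47.EM μ) (hnd : Pool.Agent.W_7d29a1_h47.Nondeg μ) :
    ∃ n₀ : ℕ, ∀ n : ℕ, n₀ ≤ n → Real.log (n + 1) ≤ 1 * EE μ n := by
  obtain ⟨n0, h0⟩ := Pool.Agent.W_7d29a1_h18.EE_log hEM hnd 2
  refine ⟨max n0 2, fun n hn => ?_⟩
  have h1 := h0 n (by omega)
  have hn2 : (2 : ℝ) ≤ n := by exact_mod_cast (by omega : 2 ≤ n)
  have h2 : Real.log (n + 1) ≤ 2 * Real.log n := by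
    have h3 : Real.log ((n : ℝ) ^ 2) = 2 * Real.log n := by rw [Real.log_pow]; norm_num
    rw [← h3]
    refine Real.log_le_log (by linarith) ?_
    nlinarith
  linarith

/-- **Place luck** from the frame. -/
theorem place_luck1 (hEM : Pool.Agent.W_7d29a1_h47.EM μ) (hnd : Pool.Agent.W_7d29a1_h47.Nondeg μ) (hIn : FIn μ)
    (hT : FTilt μ) (α : ℝ) :
    ∃ k : ℕ, ∀ K : ℝ, ∃ (p : ℝ) (x₀ : ℕ), 0 < p ∧ ∀ x : ℕ, x₀ ≤ x → Sf μ x α →
      p ≤ (law μ).real {η | K * EE μ (2 ^ (x + k)) ≤ -X μ 0 η 0 (2 ^ (x + k)) (md (2 ^ (x + k)))} := by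
  obtain ⟨C, c, n1, hC, hc, hfr⟩ := frP_of hEM hnd hIn hT
  obtain ⟨n2, hlog⟩ := log_le_EE hEM hnd
  exact place_luck hEM hnd (EE_two hEM) (Pool.Agent.W_7d29a1_h18.EE_tendsto hEM hnd) (Cl := 1) (n₀ := max n1 n2)
    (fun n hn => hlog n (by omega)) hC hc (fun n hn => hfr n (by omega)) α

/-- **Core luck** from the frame. -/
theorem core_luck1 (hEM : Pool.Agent.W_7d29a1_h47.EM μ) (hnd : Pool.Agent.W_7d29a1_h47.Nondeg μ) (hIn : FIn μ)
    (hT : FTilt μ) (a1 : ℝ) :
    ∃ T : ℕ, ∀ K : ℝ, ∃ (p R : ℝ) (x₀ : ℕ), 0 < p ∧ 0 < R ∧ ∀ y : ℕ, x₀ ≤ y → Sf μ y a1 →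
      ∃ M : ℕ, 0 < M ∧ Even M ∧ M = 2 ^ T * 2 ^ y ∧
        p ≤ (law μ).real {η | Ev μ (R * (vA μ 1 (2 ^ y) * 2 ^ y)) (K * EE μ (2 ^ y)) M 0 η} := by
  obtain ⟨n2, hlog⟩ := log_le_EE hEM hnd
  exact core_luck hEM hnd (Pool.Agent.W_7d29a1_h18.EE_tendsto hEM hnd) hlog (place_luck1 hEM hnd hIn hT a1)

end

end Pool.Agent.W_7d29a1_h21g
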