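import Pool.Agent.W_7d29a1_h21g.PickA

/-!
Track G (B), instance. B1: there and back: the luck ends in one of `2 k + 1` cells, the mirror image of the same event
leads back to the axis. (helper21)
-/

namespace Pool.Agent.W_7d29a1_h21g

open MeasureTheory ProbabilityTheory Filter Topology
open Pool.Agent.W_7d29a1_F Pool.Agent.W_7d29a1_h60 Pool.Agent.W_7d29a1_L78

noncomputable section

variable {μ : Measure ℝ} {s : ℝ} [IsProbabilityMeasure μ]

/-- Two independent pieces one after the other. -/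
theorem two_pieces {m n : ℕ} {y z : ℤ} (hy0 : 0 ≤ y) (hy1 : y ≤ m) (hz0 : 0 ≤ z) (hz1 : z ≤ n) (Y Z : ℝ) :
    (law μ).real {η | Y ≤ -X μ s η 0 m y} * (law μ).real {η | Z ≤ -X μ s η 0 n z} ≤
      (law μ).real {η | Y + Z ≤ -X μ s η 0 (m + n) (y + z)} := by
  have hd1 : DependsOn (fun η : Env => io (Y ≤ -X μ s η 0 m y)) (rows 0 (m : ℤ)) := by
    intro η η' h
    have h1 : X μ s η 0 m y = X μ s η' 0 m y := by
      refine X_dep_rows (μ := μ) (s := s) 0 m y fun x hx => h x (rows_mono le_rfl ?_ hx)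
      show (0 : ℤ) + (m : ℤ) ≤ _
      rw [zero_add]
    show io (Y ≤ -X μ s η 0 m y) = io (Y ≤ -X μ s η' 0 m y)
    rw [h1]
  have hd2 : DependsOn (fun η : Env => io (Z ≤ -X μ s η ((m : ℤ), y) n z)) (rows (m : ℤ) (m + n : ℤ)) := by
    intro η η' h
    have h1 : X μ s η ((m : ℤ), y) n z = X μ s η' ((m : ℤ), y) n z :=
      X_dep_rows (μ := μ) (s := s) ((m : ℤ), y) n z h
    show io (Z ≤ -X μ s η ((m : ℤ), y) n z) = io (Z ≤ -X μ s η' ((m : ℤ), y) n z)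
    rw [h1]
  have m1 : Measurable fun η : Env => io (Y ≤ -X μ s η 0 m y) := measurable_io (meas_negX 0 m y Y)
  have m2 : Measurable fun η : Env => io (Z ≤ -X μ s η ((m : ℤ), y) n z) := measurable_io (meas_negX _ n z Z)
  rw [← real_X_place (μ := μ) (s := s) ((m : ℤ), y) n z Z, ← integral_io_real (meas_negX 0 m y Y),
    ← integral_io_real (meas_negX ((m : ℤ), y) n z Z), ← integral_io_real (meas_negX 0 (m + n) (y + z) (Y + Z)),
    ← integral_indep m1 m2 hd1 hd2 (rows_disj le_rfl)]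
  refine integral_mono_of_nonneg (Filter.Eventually.of_forall fun η => mul_nonneg (io_nonneg _) (io_nonneg _))
    ?_ (Filter.Eventually.of_forall fun η => ?_)
  · refine Integrable.of_bound (measurable_io (meas_negX 0 (m + n) (y + z) (Y + Z))).aestronglyMeasurable 1
      (Filter.Eventually.of_forall fun η => ?_)
    rw [Real.norm_eq_abs, abs_of_nonneg (io_nonneg _)]
    exact io_le_one _
  · show io (Y ≤ -X μ s η 0 m y) * io (Z ≤ -X μ s η ((m : ℤ), y) n z) ≤ io (Y + Z ≤ -X μ s η 0 (m + n) (y + z))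
    by_cases h1 : Y ≤ -X μ s η 0 m y
    · by_cases h2 : Z ≤ -X μ s η ((m : ℤ), y) n z
      · have h4 := X_add_le (μ := μ) (s := s) η (0 : Pt) hy0 hy1 hz0 hz1
        have e2 : (((0 : Pt).1 + (m : ℤ), (0 : Pt).2 + y) : Pt) = ((m : ℤ), y) := by simp
        rw [e2] at h4
        rw [io_of h1, io_of h2, io_of (show Y + Z ≤ -X μ s η 0 (m + n) (y + z) by linarith), mul_one]
      · rw [io_not h2, mul_zero]
        exact io_nonneg _
    · rw [io_not h1, zero_mul]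
      exact io_nonneg _

/-- There and back (tilt `0`). The luck `Y` over `l` rows whose end is at distance at most `k w` from the centre. -/
theorem there_and_back (hEM : Pool.Agent.W_7d29a1_h47.EM μ) (l m w k : ℕ) (hw : 1 ≤ w) (hwm : w ≤ m / 2) {A : ℝ}
    (hA : 0 < A) (hX : ∀ y : ℤ, (m : ℤ) / 2 - w ≤ y → y ≤ (m : ℤ) / 2 → ∫ η, max (X μ 0 η 0 m y) 0 ∂(law μ) ≤ A)
    (Y : ℝ) :
    ((law μ).real {η | ∃ b ∈ Finset.Icc (0 : ℤ) l, |b - (l : ℤ) / 2| ≤ k * w ∧ Y ≤ -X μ 0 η 0 l b}) ^ 2 ≤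
      (2 * (2 * k + 1)) ^ 2 *
        (law μ).real {η | 2 * (Y - 2 * A) ≤ -X μ 0 η 0 ((l + m) + (l + m)) ((l + m : ℕ) : ℤ)} := by
  classical
  obtain ⟨S, hSdef⟩ : ∃ S : ℤ → Finset ℤ, S = fun j => (Finset.Icc (0 : ℤ) l).filter
    fun b => (l : ℤ) / 2 + j * w ≤ b ∧ b < (l : ℤ) / 2 + (j + 1) * w := ⟨_, rfl⟩
  have hS : ∀ j b, b ∈ S j ↔ (0 ≤ b ∧ b ≤ l) ∧ (l : ℤ) / 2 + j * w ≤ b ∧ b < (l : ℤ) / 2 + (j + 1) * w := by
    intro j b
    rw [hSdef, Finset.mem_filter, Finset.mem_Icc]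
  obtain ⟨I, hI⟩ : ∃ I : Finset ℤ, I = Finset.Icc (-(k : ℤ)) k := ⟨_, rfl⟩
  have hwZ : (1 : ℤ) ≤ w := by exact_mod_cast hw
  have hwmZ : (w : ℤ) ≤ (m : ℤ) / 2 := by omega
  -- the cells cover the middle
  have hsub : {η : Env | ∃ b ∈ Finset.Icc (0 : ℤ) l, |b - (l : ℤ) / 2| ≤ k * w ∧ Y ≤ -X μ 0 η 0 l b} ⊆
      ⋃ j ∈ I, {η : Env | ∃ b ∈ S j, Y ≤ -X μ 0 η 0 l b} := by
    rintro η ⟨b, hb, hbk, hY⟩
    rw [Finset.mem_Icc] at hb
    rw [abs_le] at hbk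
    have h1 := Int.mul_ediv_self_le (x := b - (l : ℤ) / 2) (k := (w : ℤ)) (by omega)
    have h2 := Int.lt_mul_ediv_self_add (x := b - (l : ℤ) / 2) (k := (w : ℤ)) (by omega)
    obtain ⟨j, hj⟩ : ∃ j : ℤ, j = (b - (l : ℤ) / 2) / w := ⟨_, rfl⟩
    rw [← hj] at h1 h2
    simp only [Set.mem_iUnion]
    refine ⟨j, ?_, b, (hS j b).2 ⟨hb, ?_, ?_⟩, hY⟩
    · rw [hI, Finset.mem_Icc]
      constructor
      · by_contra hcon
        have h3 : j + 1 ≤ -(k : ℤ) := by omega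
        have h4 : (w : ℤ) * (j + 1) ≤ w * (-(k : ℤ)) := mul_le_mul_of_nonneg_left h3 (by omega)
        nlinarith [hbk.1]
      · by_contra hcon
        have h3 : (k : ℤ) + 1 ≤ j := by omega
        have h4 : (w : ℤ) * (k + 1) ≤ w * j := mul_le_mul_of_nonneg_left h3 (by omega)
        nlinarith [hbk.2]
    · linarith [mul_comm (w : ℤ) j]
    · nlinarith [mul_comm (w : ℤ) j]
  have hcard : I.card = 2 * k + 1 := by
    rw [hI, Int.card_Icc]
    omega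
  obtain ⟨P, hP⟩ : ∃ P : ℝ, P = (law μ).real {η : Env | ∃ b ∈ Finset.Icc (0 : ℤ) l, |b - (l : ℤ) / 2| ≤ k * w ∧
    Y ≤ -X μ 0 η 0 l b} := ⟨_, rfl⟩
  have hP0 : 0 ≤ P := by rw [hP]; exact measureReal_nonneg
  have hPs : P ≤ ∑ j ∈ I, (law μ).real {η : Env | ∃ b ∈ S j, Y ≤ -X μ 0 η 0 l b} := by
    rw [hP]
    exact (measureReal_mono hsub (measure_ne_top _ _)).trans (measureReal_biUnion_finset_le I _)
  rw [← hP]
  have hk1 : (0 : ℝ) < 2 * k + 1 := by positivity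
  rcases hP0.eq_or_lt with h0 | h0
  · rw [← h0]
    have : (0 : ℝ) ≤ (law μ).real {η | 2 * (Y - 2 * A) ≤ -X μ 0 η 0 ((l + m) + (l + m)) ((l + m : ℕ) : ℤ)} :=
      measureReal_nonneg
    have h3 : (0 : ℝ) ^ 2 = 0 := by norm_num
    rw [h3]
    exact mul_nonneg (sq_nonneg _) this
  -- one of the cells
  obtain ⟨j, hj, hPj⟩ : ∃ j ∈ I, P ≤ (2 * k + 1) * (law μ).real {η : Env | ∃ b ∈ S j, Y ≤ -X μ 0 η 0 l b} := by
    by_contra hcon
    push Not at hcon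
    have hne : I.Nonempty := by
      rw [hI]
      exact ⟨0, by rw [Finset.mem_Icc]; omega⟩
    have h1 : ∑ j ∈ I, (2 * (k : ℝ) + 1) * (law μ).real {η : Env | ∃ b ∈ S j, Y ≤ -X μ 0 η 0 l b} <
        ∑ _j ∈ I, P := Finset.sum_lt_sum_of_nonempty hne hcon
    rw [← Finset.mul_sum, Finset.sum_const, hcard, nsmul_eq_mul] at h1
    push_cast at h1
    have h2 := mul_le_mul_of_nonneg_left hPs hk1.le
    linarith
  have hpos : 0 < (law μ).real {η : Env | ∃ b ∈ S j, Y ≤ -X μ 0 η 0 l b} := by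
    by_contra hcon
    have h1 : (law μ).real {η : Env | ∃ b ∈ S j, Y ≤ -X μ 0 η 0 l b} = 0 :=
      le_antisymm (not_lt.1 hcon) measureReal_nonneg
    rw [h1, mul_zero] at hPj
    linarith
  obtain ⟨b0, hb0⟩ : (S j).Nonempty := by
    by_contra hcon
    rw [Finset.not_nonempty_iff_eq_empty] at hcon
    rw [hcon] at hpos
    simp at hpos
  obtain ⟨z, hz⟩ : ∃ z : ℤ, z = (l : ℤ) / 2 + j * w + (m : ℤ) / 2 := ⟨_, rfl⟩
  have hzb : ∀ b ∈ S j, (m : ℤ) / 2 - w ≤ z - b ∧ z - b ≤ (m : ℤ) / 2 := by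
    intro b hb
    obtain ⟨_, h1, h2⟩ := (hS j b).1 hb
    have h3 : (j + 1) * (w : ℤ) = j * w + w := by ring
    rw [h3] at h2
    constructor <;> omega
  have hadm : ∀ b ∈ S j, 0 ≤ b ∧ b ≤ l ∧ 0 ≤ z - b ∧ z - b ≤ m := by
    intro b hb
    obtain ⟨h1, h2⟩ := hzb b hb
    exact ⟨((hS j b).1 hb).1.1, ((hS j b).1 hb).1.2, by omega, by omega⟩
  have hpick := pick_end (μ := μ) (s := 0) hEM l m (S j) z hadm hA
    (fun b hb => hX (z - b) (hzb b hb).1 (hzb b hb).2) Y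
  obtain ⟨h00, h01, h02, h03⟩ := hadm b0 hb0
  have hz0 : 0 ≤ z := by omega
  have hz1 : z ≤ ((l + m : ℕ) : ℤ) := by push_cast; omega
  have h2p := two_pieces (μ := μ) (s := 0) (m := l + m) (n := l + m) (y := z) (z := ((l + m : ℕ) : ℤ) - z) hz0 hz1
    (by omega) (by omega) (Y - 2 * A) (Y - 2 * A)
  rw [real_X_mirror hEM] at h2p
  have e1 : z + (((l + m : ℕ) : ℤ) - z) = ((l + m : ℕ) : ℤ) := by ring
  have e2 : Y - 2 * A + (Y - 2 * A) = 2 * (Y - 2 * A) := by ring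
  rw [e1, e2] at h2p
  obtain ⟨q, hq⟩ : ∃ q : ℝ, q = (law μ).real {η | Y - 2 * A ≤ -X μ 0 η 0 (l + m) z} := ⟨_, rfl⟩
  rw [← hq] at hpick h2p
  have h5 : P ≤ 2 * (2 * k + 1) * q := by
    have := mul_le_mul_of_nonneg_left hpick hk1.le
    linarith
  calc P ^ 2 ≤ (2 * (2 * k + 1) * q) ^ 2 := pow_le_pow_left₀ hP0 h5 2
    _ = (2 * (2 * k + 1)) ^ 2 * (q * q) := by ring
    _ ≤ _ := mul_le_mul_of_nonneg_left h2p (sq_nonneg _)

end

end Pool.Agent.W_7d29a1_h21g
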