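import Pool.Agent.W_7d29a1_h21g.LuckP

/-!
Track G (B), instance. PLACE LUCK: after a soft scale the direction `0` is lucky by any number of units with positive
probability. (helper21)
-/

namespace Pool.Agent.W_7d29a1_h21g

open MeasureTheory ProbabilityTheory Filter Topology
open Pool.Agent.W_7d29a1_F Pool.Agent.W_7d29a1_h60 Pool.Agent.W_7d29a1_L78 Pool.Agent.W_7d29a1_h4g Pool.Agent.W_7d29a1_G

noncomputable section

/-- What is needed of the frame at the scale `n`: width `w`, unit `E`. -/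
structure FrP (μ : Measure ℝ) (C c : ℝ) (n w : ℕ) (E : ℝ) : Prop where
  w1 : 1 ≤ w
  wn : w ≤ n / 2
  cheap : ∀ y : ℤ, |y - (n : ℤ) / 2| ≤ w → ∫ η, max (X μ 0 η 0 n y) 0 ∂(law μ) ≤ C * E
  mom : ∀ l : ℕ, l ≤ n → ∫ η, (max (V μ 0 η 0 l) 0) ^ 2 ∂(law μ) ≤ (C * E) ^ 2
  far : ∀ l : ℕ, l ≤ n → ∀ k : ℕ, (law μ).real {η | ∃ b ∈ Finset.Icc (0 : ℤ) l, k * w < |b - (l : ℤ) / 2| ∧
    0 ≤ -X μ 0 η 0 l b} ≤ C * Real.exp (-(c * k))

variable {μ : Measure ℝ} [IsProbabilityMeasure μ]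

/-- A luck has a good end point. -/
theorem exists_end (η : Env) (l : ℕ) {Y : ℝ} (h : Y ≤ V μ 0 η 0 l) :
    ∃ b ∈ Finset.Icc (0 : ℤ) l, Y - Real.log (l + 1) ≤ -X μ 0 η 0 l b := by
  by_contra hcon
  push Not at hcon
  have h1 : ∀ b ∈ Finset.Icc (0 : ℤ) l, W μ 0 η 0 l b < Real.exp (Y - Real.log (l + 1)) := by
    intro b hb
    have h2 := hcon b hb
    rw [Finset.mem_Icc] at hb
    have h3 : 0 < W μ 0 η 0 l b := W_pos η 0 hb.1 hb.2
    unfold X at h2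
    rw [neg_neg] at h2
    exact (Real.log_lt_iff_lt_exp h3).1 h2
  have h2 : Real.exp (V μ 0 η 0 l) < Real.exp Y := by
    rw [exp_V]
    unfold WS
    calc ∑ b ∈ Finset.Icc (0 : ℤ) l, W μ 0 η 0 l b < ∑ _b ∈ Finset.Icc (0 : ℤ) l, Real.exp (Y - Real.log (l + 1)) :=
          Finset.sum_lt_sum_of_nonempty ⟨0, by simp⟩ h1
      _ = Real.exp Y := by
        rw [Finset.sum_const, Int.card_Icc, nsmul_eq_mul, Real.exp_sub, Real.exp_log (by positivity)]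
        have h3 : (((l : ℤ) + 1 - 0).toNat : ℝ) = (l : ℝ) + 1 := by
          have : ((l : ℤ) + 1 - 0).toNat = l + 1 := by omega
          rw [this]
          push_cast
          ring
        rw [h3]
        field_simp
  exact absurd (Real.exp_lt_exp.1 h2) (not_lt.2 h)

/-- The vertical piece is cheap with probability `1 / 2`. -/
theorem vertical_half (hEM : Pool.Agent.W_7d29a1_h47.EM μ) {r M : ℕ} (hrM : r ≤ M) :
    1 / 2 ≤ (law μ).real {η | -(2 * EE μ M) ≤ -X μ 0 η 0 r (md r)} := by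
  have hE := EE_pos (μ := μ) M
  have hS : Sub fun η => max (X μ 0 η 0 r (md r)) 0 := Sub_Xp 0 (md_nonneg r) (md_le r)
  have h1 : ∫ η, max (X μ 0 η 0 r (md r)) 0 ∂(law μ) ≤ EE μ M := ref_le_EE hrM
  have h2 := half_mass (μ := μ) hEM (ι := fun _ => 1) (R := fun η => max (X μ 0 η 0 r (md r)) 0) (Sub.const 1)
    (fun _ => zero_le_one) hS.1 (fun _ => le_max_right _ _) (by simpa using hS.integrable hEM) hE (by simpa using h1)
  have hm : MeasurableSet {η | max (X μ 0 η 0 r (md r)) 0 ≤ 2 * EE μ M} := measurableSet_le hS.1 measurable_const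
  have h3 : ∫ η, (1 : ℝ) * io (max (X μ 0 η 0 r (md r)) 0 ≤ 2 * EE μ M) ∂(law μ) =
      (law μ).real {η | max (X μ 0 η 0 r (md r)) 0 ≤ 2 * EE μ M} := by
    rw [← integral_io_real hm]
    exact integral_congr_ae (Filter.Eventually.of_forall fun η => one_mul _)
  rw [h3, integral_const, probReal_univ, one_smul] at h2
  have h4 : (law μ).real {η | max (X μ 0 η 0 r (md r)) 0 ≤ 2 * EE μ M} ≤
      (law μ).real {η | -(2 * EE μ M) ≤ -X μ 0 η 0 r (md r)} := by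
    refine measureReal_mono (fun η hη => ?_) (measure_ne_top _ _)
    rw [Set.mem_ofPred_eq] at hη ⊢
    have := (le_max_left (X μ 0 η 0 r (md r)) 0).trans hη
    linarith
  linarith

/-- **PLACE LUCK.** -/
theorem place_luck (hEM : Pool.Agent.W_7d29a1_h47.EM μ) (hnd : Pool.Agent.W_7d29a1_h47.Nondeg μ)
    (hdbl : ∀ n : ℕ, EE μ (2 * n) ≤ 2 * EE μ n) (hinf : Tendsto (EE μ) atTop atTop)
    {Cl : ℝ} {n₀ : ℕ} (hlog : ∀ n : ℕ, n₀ ≤ n → Real.log (n + 1) ≤ Cl * EE μ n)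
    {C c : ℝ} (hC : 0 < C) (hc : 0 < c) (hfr : ∀ n : ℕ, n₀ ≤ n → ∃ w : ℕ, FrP μ C c n w (EE μ n)) (α : ℝ) :
    ∃ k : ℕ, ∀ K : ℝ, ∃ (p : ℝ) (x₀ : ℕ), 0 < p ∧ ∀ x : ℕ, x₀ ≤ x → Sf μ x α →
      p ≤ (law μ).real {η | K * EE μ (2 ^ (x + k)) ≤ -X μ 0 η 0 (2 ^ (x + k)) (md (2 ^ (x + k)))} := by
  obtain ⟨k1, hk1⟩ : ∃ k1 : ℕ, α ≤ k1 := exists_nat_ge α
  refine ⟨k1 + 2, fun K => ?_⟩
  obtain ⟨Cl', hCl'⟩ : ∃ Cl' : ℝ, Cl' = max Cl 0 := ⟨_, rfl⟩
  have hCl0 : 0 ≤ Cl' := by rw [hCl']; exact le_max_right _ _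
  have hClC : Cl ≤ Cl' := by rw [hCl']; exact le_max_left _ _
  obtain ⟨b, hb⟩ : ∃ b : ℝ, b = 2 ^ k1 := ⟨_, rfl⟩
  have hb0 : 0 < b := by rw [hb]; positivity
  obtain ⟨K', hK'⟩ : ∃ K' : ℝ, K' = b * (2 * |K| + 2 * C + Cl' + 4) := ⟨_, rfl⟩
  have hK'0 : 0 < K' := by
    rw [hK']
    have := abs_nonneg K
    positivity
  obtain ⟨p1, U₀, hp1, hluck⟩ := luck_V hEM hnd α (K := K') (Cv := C * b) hK'0 (by positivity)
  obtain ⟨R, hR⟩ : ∃ R : ℕ, C * Real.exp (-(c * R)) ≤ p1 / 2 := by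
    have h1 : Tendsto (fun R : ℕ => C * Real.exp (-(c * R))) atTop (𝓝 (C * 0)) := by
      refine Tendsto.const_mul C (Real.tendsto_exp_atBot.comp ?_)
      exact tendsto_neg_atTop_atBot.comp (tendsto_natCast_atTop_atTop.const_mul_atTop hc)
    rw [mul_zero] at h1
    exact ((h1.eventually_le_const (by positivity : (0 : ℝ) < p1 / 2))).exists
  obtain ⟨x₁, hx₁⟩ := (hinf.eventually_ge_atTop U₀).exists_forall_of_atTop
  refine ⟨(p1 / 2) ^ 2 / (2 * (2 * R + 1)) ^ 2 / 2, max n₀ x₁, by positivity, fun x hx hS => ?_⟩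
  have hx2 : x < 2 ^ x := Nat.lt_two_pow_self
  obtain ⟨n, hn⟩ : ∃ n : ℕ, n = 2 ^ x := ⟨_, rfl⟩
  obtain ⟨n1, hn1⟩ : ∃ n1 : ℕ, n1 = 2 ^ (x + k1) := ⟨_, rfl⟩
  have hnn : n ≤ n1 := by
    rw [hn, hn1]
    exact Nat.pow_le_pow_right (by norm_num) (by omega)
  have hn0 : n₀ ≤ n := by rw [hn]; have := le_max_left n₀ x₁; omega
  have hU : U₀ ≤ EE μ (2 ^ x) := hx₁ (2 ^ x) (by have := le_max_right n₀ x₁; omega)
  -- the units
  have hpow : ∀ j : ℕ, EE μ (2 ^ j * n) ≤ 2 ^ j * EE μ n := by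
    intro j
    induction j with
    | zero => simp
    | succ j ih =>
      have h1 := hdbl (2 ^ j * n)
      have e1 : 2 * (2 ^ j * n) = 2 ^ (j + 1) * n := by ring
      rw [e1] at h1
      calc EE μ (2 ^ (j + 1) * n) ≤ 2 * EE μ (2 ^ j * n) := h1
        _ ≤ 2 * (2 ^ j * EE μ n) := by linarith
        _ = 2 ^ (j + 1) * EE μ n := by ring
  have e1 : n1 = 2 ^ k1 * n := by rw [hn1, hn, pow_add]; ring
  have e4 : 2 ^ (x + (k1 + 2)) = 4 * n1 := by rw [hn1, ← add_assoc, pow_add]; ring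
  have hE0 : 0 < EE μ n := EE_pos n
  have hE1 : EE μ n1 ≤ b * EE μ n := by
    rw [e1, hb]
    exact hpow k1
  have hE4 : EE μ (4 * n1) ≤ 4 * b * EE μ n := by
    have h1 := hpow (k1 + 2)
    have e2 : 2 ^ (k1 + 2) * n = 4 * n1 := by rw [e1, pow_add]; ring
    rw [e2] at h1
    have e3 : (2 : ℝ) ^ (k1 + 2) = 4 * b := by rw [hb, pow_add]; ring
    rw [e3] at h1
    exact h1
  have hE1p : 0 < EE μ n1 := EE_pos n1
  have hE4p : 0 < EE μ (4 * n1) := EE_pos _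
  -- the frame
  obtain ⟨w, hF⟩ := hfr n1 (hn0.trans hnn)
  rw [← hn] at hU
  obtain ⟨l, hl, hp⟩ := hluck x (by rw [← hn]; exact hU) hS (fun l hl => by
    have h1 : (l : ℝ) ≤ n1 := by
      refine hl.trans ?_
      rw [hn1]
      push_cast
      rw [← Real.rpow_natCast]
      refine Real.rpow_le_rpow_of_exponent_le one_le_two ?_
      push_cast
      linarith
    have h2 := hF.mom l (by exact_mod_cast h1)
    refine h2.trans (pow_le_pow_left₀ (by positivity) ?_ 2)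
    rw [← hn]
    calc C * EE μ n1 ≤ C * (b * EE μ n) := mul_le_mul_of_nonneg_left hE1 hC.le
      _ = C * b * EE μ n := by ring)
  have hln : l ≤ n1 := by
    have h1 : (l : ℝ) ≤ n1 := by
      refine hl.trans ?_
      rw [hn1]
      push_cast
      rw [← Real.rpow_natCast]
      refine Real.rpow_le_rpow_of_exponent_le one_le_two ?_
      push_cast
      linarith
    exact_mod_cast h1
  rw [← hn] at hp
  obtain ⟨Y, hY⟩ : ∃ Y : ℝ, Y = (K' - Cl' * b) * EE μ n := ⟨_, rfl⟩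
  have hlogl : Real.log (l + 1) ≤ Cl' * b * EE μ n := by
    have h1 : Real.log ((l : ℝ) + 1) ≤ Real.log ((n1 : ℝ) + 1) := by
      refine Real.log_le_log (by positivity) ?_
      have : (l : ℝ) ≤ n1 := by exact_mod_cast hln
      linarith
    have h2 := hlog n1 (hn0.trans hnn)
    have h3 : Cl * EE μ n1 ≤ Cl' * (b * EE μ n) :=
      (mul_le_mul_of_nonneg_right hClC hE1p.le).trans (mul_le_mul_of_nonneg_left hE1 hCl0)
    linarith
  have hY0 : 0 ≤ Y := by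
    rw [hY, hK']
    have h1 := abs_nonneg K
    have h2 : b * (2 * |K| + 2 * C + Cl' + 4) - Cl' * b = b * (2 * |K| + 2 * C + 4) := by ring
    rw [h2]
    positivity
  -- the luck ends in the middle
  have hmid : p1 / 2 ≤ (law μ).real {η | ∃ b ∈ Finset.Icc (0 : ℤ) l, |b - (l : ℤ) / 2| ≤ R * w ∧ Y ≤ -X μ 0 η 0 l b} := by
    have h1 : {η | K' * EE μ n ≤ V μ 0 η 0 l} ⊆
        {η | ∃ b ∈ Finset.Icc (0 : ℤ) l, |b - (l : ℤ) / 2| ≤ R * w ∧ Y ≤ -X μ 0 η 0 l b} ∪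
        {η | ∃ b ∈ Finset.Icc (0 : ℤ) l, R * w < |b - (l : ℤ) / 2| ∧ 0 ≤ -X μ 0 η 0 l b} := by
      intro η hη
      rw [Set.mem_ofPred_eq] at hη
      obtain ⟨b', hb', h2⟩ := exists_end η l hη
      have h3 : Y ≤ -X μ 0 η 0 l b' := by
        rw [hY]
        have : (K' - Cl' * b) * EE μ n = K' * EE μ n - Cl' * b * EE μ n := by ring
        linarith
      rcases le_or_gt |b' - (l : ℤ) / 2| (R * w) with h4 | h4
      · exact Or.inl ⟨b', hb', h4, h3⟩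
      · exact Or.inr ⟨b', hb', h4, hY0.trans h3⟩
    have h2 := (measureReal_mono (μ := law μ) h1 (measure_ne_top _ _)).trans (measureReal_union_le _ _)
    have h3 := hF.far l hln R
    linarith
  have htb := there_and_back hEM l n1 w R hF.w1 hF.wn (A := C * EE μ n1) (by positivity)
    (fun y h1 h2 => hF.cheap y (by rw [abs_le]; constructor <;> omega)) Y
  obtain ⟨q, hq⟩ : ∃ q : ℝ, q = (law μ).real {η | 2 * (Y - 2 * (C * EE μ n1)) ≤
    -X μ 0 η 0 ((l + n1) + (l + n1)) ((l + n1 : ℕ) : ℤ)} := ⟨_, rfl⟩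
  rw [← hq] at htb
  have hq1 : (p1 / 2) ^ 2 / (2 * (2 * (R : ℝ) + 1)) ^ 2 ≤ q := by
    rw [div_le_iff₀ (by positivity)]
    have h1 : (p1 / 2) ^ 2 ≤ _ := pow_le_pow_left₀ (by positivity) hmid 2
    have h2 := h1.trans htb
    linarith [mul_comm q ((2 * (2 * (R : ℝ) + 1)) ^ 2)]
  -- the vertical piece
  obtain ⟨r, hr⟩ : ∃ r : ℕ, r = 2 * (n1 - l) := ⟨_, rfl⟩
  have hv := vertical_half (μ := μ) hEM (r := r) (M := 4 * n1) (by omega)
  have h2p := two_pieces (μ := μ) (s := 0) (m := (l + n1) + (l + n1)) (n := r) (y := ((l + n1 : ℕ) : ℤ)) (z := md r)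
    (by positivity) (by push_cast; omega) (md_nonneg r) (md_le r) (2 * (Y - 2 * (C * EE μ n1))) (-(2 * EE μ (4 * n1)))
  have e5 : (l + n1) + (l + n1) + r = 2 ^ (x + (k1 + 2)) := by rw [e4]; omega
  have e6 : ((l + n1 : ℕ) : ℤ) + md r = md (2 ^ (x + (k1 + 2))) := by
    rw [e4]
    unfold md
    push_cast
    omega
  rw [e5, e6, ← hq] at h2p
  have hfin : q * (1 / 2) ≤ (law μ).real {η | 2 * (Y - 2 * (C * EE μ n1)) + -(2 * EE μ (4 * n1)) ≤
      -X μ 0 η 0 (2 ^ (x + (k1 + 2))) (md (2 ^ (x + (k1 + 2))))} := by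
    refine le_trans ?_ h2p
    exact mul_le_mul_of_nonneg_left hv (by rw [hq]; exact measureReal_nonneg)
  have hKK : K * EE μ (2 ^ (x + (k1 + 2))) ≤ 2 * (Y - 2 * (C * EE μ n1)) + -(2 * EE μ (4 * n1)) := by
    rw [e4, hY, hK']
    have h1 : K * EE μ (4 * n1) ≤ |K| * (4 * b * EE μ n) :=
      (mul_le_mul_of_nonneg_right (le_abs_self K) hE4p.le).trans (mul_le_mul_of_nonneg_left hE4 (abs_nonneg K))
    have h2 : C * EE μ n1 ≤ C * (b * EE μ n) := mul_le_mul_of_nonneg_left hE1 hC.le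
    have h3 : 2 * ((b * (2 * |K| + 2 * C + Cl' + 4) - Cl' * b) * EE μ n) =
        4 * |K| * (b * EE μ n) + 4 * C * (b * EE μ n) + 8 * (b * EE μ n) := by ring
    nlinarith
  refine le_trans ?_ (hfin.trans (measureReal_mono (fun η hη => ?_) (measure_ne_top _ _)))
  · have := mul_le_mul_of_nonneg_right hq1 (by norm_num : (0 : ℝ) ≤ 1 / 2)
    linarith
  · rw [Set.mem_ofPred_eq] at hη ⊢
    exact hKK.trans hη

end

end Pool.Agent.W_7d29a1_h21g
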