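import Pool.Agent.W_7d29a1_L78.HitA
import Pool.Agent.W_7d29a1_F.Bridge3

/-!
Track G (B), instance. B1: a luck with a free end gives a point to point luck in the direction `0`: the end point is
connected with the centre of its cell, and the mirror image of the same event leads back to the axis. (helper21)
-/

namespace Pool.Agent.W_7d29a1_h21g

open MeasureTheory ProbabilityTheory Filter Topology
open Pool.Agent.W_7d29a1_F Pool.Agent.W_7d29a1_h60 Pool.Agent.W_7d29a1_L78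

noncomputable section

variable {μ : Measure ℝ} {s : ℝ} [IsProbabilityMeasure μ]

theorem meas_negX (a : Pt) (n : ℕ) (y : ℤ) (Y : ℝ) : MeasurableSet {η : Env | Y ≤ -X μ s η a n y} :=
  measurableSet_le measurable_const (measurable_X a n y).neg

theorem meas_exX (a : Pt) (n : ℕ) (S : Finset ℤ) (Y : ℝ) :
    MeasurableSet {η : Env | ∃ b ∈ S, Y ≤ -X μ s η a n b} := by
  have e : {η : Env | ∃ b ∈ S, Y ≤ -X μ s η a n b} = ⋃ b ∈ S, {η : Env | Y ≤ -X μ s η a n b} := by
    ext η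
    simp
  rw [e]
  exact Finset.measurableSet_biUnion _ fun b _ => meas_negX a n b Y

/-- The end point is chosen by the rows `≤ l`, the connection to the fixed point `(l + m, z)` is fresh. -/
theorem pick_end (hEM : Pool.Agent.W_7d29a1_h47.EM μ) (l m : ℕ) (S : Finset ℤ) (z : ℤ)
    (hS : ∀ b ∈ S, 0 ≤ b ∧ b ≤ l ∧ 0 ≤ z - b ∧ z - b ≤ m) {A : ℝ} (hA : 0 < A)
    (hX : ∀ b ∈ S, ∫ η, max (X μ s η 0 m (z - b)) 0 ∂(law μ) ≤ A) (Y : ℝ) :
    (law μ).real {η | ∃ b ∈ S, Y ≤ -X μ s η 0 l b} ≤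
      2 * (law μ).real {η | Y - 2 * A ≤ -X μ s η 0 (l + m) z} := by
  classical
  rw [← integral_io_real (meas_exX 0 l S Y), ← integral_io_real (meas_negX 0 (l + m) z (Y - 2 * A))]
  obtain ⟨ι, hι⟩ : ∃ ι : ℤ → Env → ℝ, ι = fun b η => io (Fi S (fun j => j) (fun j => Y ≤ -X μ s η 0 l j) b) :=
    ⟨_, rfl⟩
  obtain ⟨R, hR⟩ : ∃ R : ℤ → Env → ℝ, R = fun b η => max (X μ s η ((l : ℤ), b) m (z - b)) 0 := ⟨_, rfl⟩
  have hιS : ∀ b ∈ S, Sub (ι b) := fun b hb => by
    rw [hι]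
    exact Sub_io (meas_Fi S (fun j => j) (fun j _ => meas_negX 0 l j Y) hb)
  have hι0 : ∀ b η, 0 ≤ ι b η := fun b η => by rw [hι]; exact io_nonneg _
  have hιd : ∀ b ∈ S, DependsOn (ι b) (rows 0 (l : ℤ)) := by
    intro b hb
    rw [hι]
    refine dep_Fi S (fun j => j) hb fun j _ _ η η' h => ?_
    have h1 : X μ s η 0 l j = X μ s η' 0 l j := by
      refine X_dep_rows (μ := μ) (s := s) 0 l j fun x hx => h x (rows_mono le_rfl ?_ hx)
      show (0 : ℤ) + (l : ℤ) ≤ _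
      rw [zero_add]
    rw [h1]
  have hιsum : ∀ η, ∑ b ∈ S, ι b η = io (∃ b ∈ S, Y ≤ -X μ s η 0 l b) := by
    intro η
    rw [hι]
    exact sum_Fi S Function.injective_id fun j => Y ≤ -X μ s η 0 l j
  have hRS : ∀ b ∈ S, Sub (R b) := fun b hb => by
    rw [hR]
    exact Sub_Xp _ (hS b hb).2.2.1 (hS b hb).2.2.2
  have hR0 : ∀ b η, 0 ≤ R b η := fun b η => by rw [hR]; exact le_max_right _ _
  have hRd : ∀ b, DependsOn (R b) (rows (l : ℤ) (l + m : ℤ)) := by
    intro b η η' h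
    rw [hR]
    have h1 : X μ s η ((l : ℤ), b) m (z - b) = X μ s η' ((l : ℤ), b) m (z - b) :=
      X_dep_rows (μ := μ) (s := s) ((l : ℤ), b) m (z - b) h
    show max (X μ s η ((l : ℤ), b) m (z - b)) 0 = max (X μ s η' ((l : ℤ), b) m (z - b)) 0
    rw [h1]
  have hRi : ∀ b ∈ S, ∫ η, R b η ∂(law μ) ≤ A := fun b hb => by
    rw [hR]
    exact (integral_Xp (μ := μ) (s := s) ((l : ℤ), b) m (z - b)).le.trans (hX b hb)
  have hind : ∀ b ∈ S, ∫ η, ι b η * R b η ∂(law μ) ≤ A * ∫ η, ι b η ∂(law μ) := by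
    intro b hb
    rw [integral_indep (hιS b hb).1 (hRS b hb).1 (hιd b hb) (hRd b) (rows_disj le_rfl), mul_comm]
    exact mul_le_mul_of_nonneg_right (hRi b hb) (integral_nonneg fun η => hι0 b η)
  have hhalf : ∀ b ∈ S, ∫ η, ι b η ∂(law μ) ≤ 2 * ∫ η, ι b η * io (R b η ≤ 2 * A) ∂(law μ) := fun b hb =>
    half_mass hEM (hιS b hb) (hι0 b) (hRS b hb).1 (hR0 b) (Sub.mul_integrable hEM (hιS b hb) (hRS b hb)) hA
      (hind b hb)
  have hRm : ∀ b ∈ S, MeasurableSet {η | R b η ≤ 2 * A} := fun b hb => measurableSet_le (hRS b hb).1 measurable_const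
  have hpt : ∀ η, ∑ b ∈ S, ι b η * io (R b η ≤ 2 * A) ≤ io (Y - 2 * A ≤ -X μ s η 0 (l + m) z) := by
    intro η
    by_cases hex : ∃ b ∈ S, Fi S (fun j => j) (fun j => Y ≤ -X μ s η 0 l j) b ∧ R b η ≤ 2 * A
    · obtain ⟨b, hb, hF, hRb⟩ := hex
      obtain ⟨h0, h1, h2, h3⟩ := hS b hb
      have h4 := X_add_le (μ := μ) (s := s) η (0 : Pt) (m := l) (n := m) (k := b) (y := z - b) h0 h1 h2 h3
      have e1 : b + (z - b) = z := by ring
      have e2 : (((0 : Pt).1 + (l : ℤ), (0 : Pt).2 + b) : Pt) = ((l : ℤ), b) := by simp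
      rw [e1, e2] at h4
      have h5 : X μ s η ((l : ℤ), b) m (z - b) ≤ 2 * A := by
        refine (le_max_left _ 0).trans ?_
        rw [hR] at hRb
        exact hRb
      have h6 : Y ≤ -X μ s η 0 l b := hF.1
      rw [io_of (show Y - 2 * A ≤ -X μ s η 0 (l + m) z by linarith)]
      calc ∑ b ∈ S, ι b η * io (R b η ≤ 2 * A) ≤ ∑ b ∈ S, ι b η := by
            refine Finset.sum_le_sum fun b _ => ?_
            exact mul_le_of_le_one_right (hι0 b η) (io_le_one _)
        _ = _ := hιsum η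
        _ ≤ 1 := io_le_one _
    · have h1 : ∑ b ∈ S, ι b η * io (R b η ≤ 2 * A) = 0 := by
        refine Finset.sum_eq_zero fun b hb => ?_
        by_cases hF : Fi S (fun j => j) (fun j => Y ≤ -X μ s η 0 l j) b
        · rw [io_not fun h => hex ⟨b, hb, hF, h⟩, mul_zero]
        · rw [hι]
          show io _ * _ = 0
          rw [io_not hF, zero_mul]
      rw [h1]
      exact io_nonneg _
  have hI : ∀ b ∈ S, Integrable (fun η => ι b η * io (R b η ≤ 2 * A)) (law μ) := fun b hb =>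
    Sub.mul_integrable hEM (hιS b hb) (Sub_io (hRm b hb))
  have h1 : ∫ η, io (∃ b ∈ S, Y ≤ -X μ s η 0 l b) ∂(law μ) = ∑ b ∈ S, ∫ η, ι b η ∂(law μ) := by
    rw [← integral_finsetSum _ fun b hb => (hιS b hb).integrable hEM]
    exact integral_congr_ae (Filter.Eventually.of_forall fun η => (hιsum η).symm)
  have h2 : ∑ b ∈ S, ∫ η, ι b η * io (R b η ≤ 2 * A) ∂(law μ) ≤
      ∫ η, io (Y - 2 * A ≤ -X μ s η 0 (l + m) z) ∂(law μ) := by
    rw [← integral_finsetSum _ hI]
    exact integral_mono (integrable_finsetSum _ hI) ((Sub_io (meas_negX 0 (l + m) z (Y - 2 * A))).integrable hEM) hpt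
  rw [h1]
  calc ∑ b ∈ S, ∫ η, ι b η ∂(law μ) ≤ ∑ b ∈ S, 2 * ∫ η, ι b η * io (R b η ≤ 2 * A) ∂(law μ) :=
        Finset.sum_le_sum hhalf
    _ = 2 * ∑ b ∈ S, ∫ η, ι b η * io (R b η ≤ 2 * A) ∂(law μ) := by rw [Finset.mul_sum]
    _ ≤ _ := mul_le_mul_of_nonneg_left h2 (by norm_num)

omit [IsProbabilityMeasure μ] in
theorem meas_ioR {p : ℝ → Prop} (h : MeasurableSet {x | p x}) : Measurable fun x => io (p x) := by
  classical
  have e : (fun x => io (p x)) = fun x => if x ∈ {x | p x} then (1 : ℝ) else 0 := by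
    funext x
    by_cases h1 : p x
    · rw [io_of h1, if_pos (show x ∈ {x | p x} from h1)]
    · rw [io_not h1, if_neg (show ¬ x ∈ {x | p x} from h1)]
  rw [e]
  exact Measurable.ite h measurable_const measurable_const

/-- The law of the cost does not depend on the place. -/
theorem real_X_place (a : Pt) (n : ℕ) (y : ℤ) (Y : ℝ) :
    (law μ).real {η | Y ≤ -X μ s η a n y} = (law μ).real {η | Y ≤ -X μ s η 0 n y} := by
  rw [← integral_io_real (meas_negX a n y Y), ← integral_io_real (meas_negX 0 n y Y)]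
  exact integral_X_fun (μ := μ) (s := s) (f := fun x => io (Y ≤ -x))
    (meas_ioR (measurableSet_le measurable_const measurable_neg)) a n y

/-- Mirror: at the tilt `0` the displacements `(n, y)` and `(n, n - y)` have the same law. -/
theorem real_X_mirror (hEM : Pool.Agent.W_7d29a1_h47.EM μ) (n : ℕ) (y : ℤ) (Y : ℝ) :
    (law μ).real {η | Y ≤ -X μ 0 η 0 n (n - y)} = (law μ).real {η | Y ≤ -X μ 0 η 0 n y} := by
  rw [← integral_io_real (meas_negX 0 n (n - y) Y), ← integral_io_real (meas_negX 0 n y Y)]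
  have hX : ∀ η : Env, X μ 0 (fun p => η (p.1, p.1 - p.2)) 0 n (n - y) = X μ 0 η 0 n y := by
    intro η
    have h1 := Zr_mirror η n y 0 0
    have e0 : (((0 : ℤ), (0 : ℤ) - 0) : Pt) = 0 := by simp
    have e1 : (((0 : ℤ), (0 : ℤ)) : Pt) = 0 := rfl
    rw [e0, e1] at h1
    unfold X W WR
    rw [h1, zero_mul, zero_mul]
  have hm : Measurable fun η : Env => io (Y ≤ -X μ 0 η 0 n (n - y)) :=
    (meas_ioR (p := fun x => Y ≤ -x) (measurableSet_le measurable_const measurable_neg)).comp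
      (measurable_X 0 n (n - y))
  have h := (mp_mirror (μ := μ)).map_eq
  conv_lhs => rw [← h]
  rw [integral_map (mp_mirror (μ := μ)).measurable.aemeasurable hm.aestronglyMeasurable]
  refine integral_congr_ae (Filter.Eventually.of_forall fun η => ?_)
  show io (Y ≤ -X μ 0 (fun p => η (p.1, p.1 - p.2)) 0 n (n - y)) = io (Y ≤ -X μ 0 η 0 n y)
  rw [hX]

end

end Pool.Agent.W_7d29a1_h21g
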