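import Pool.Agent.W_7d29a1_h95g.Tube
import Pool.Agent.W_7d29a1_h57g.TubeMC
import Pool.Agent.W_7d29a1_G.FR0

/-!
Track G (B), instance. The tube around the axis: an exit over a vertical line at a large distance is rare, because both legs
are expensive in the mean. (helper21)
-/

namespace Pool.Agent.W_7d29a1_h21g

open MeasureTheory ProbabilityTheory Filter Topology
open Pool.Agent.W_7d29a1_F Pool.Agent.W_7d29a1_h60 Pool.Agent.W_7d29a1_h4g Pool.Agent.W_7d29a1_h95g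
open Pool.Agent.W_7d29a1_h57g Pool.Agent.W_7d29a1_G

variable {μ : Measure ℝ}

/-- The vertical line at the distance `D` of the axis. -/
def vl (D : ℤ) (t : ℤ) : ℤ := t / 2 + D

lemma vl_line (D : ℤ) : IsLine (vl D) := by
  constructor
  · intro t
    unfold vl
    omega
  · intro t
    unfold vl
    omega

variable [IsProbabilityMeasure μ]

lemma vl_fwd {M : ℕ} {D : ℤ} {A : ℝ} (hA : ∀ m ≤ 2 * M, ep μ m (md m) ≤ A) (k : ℕ) (hk : k < M) :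
    epp μ 0 (2 * M - (k + 1)) (vl D ((2 * M : ℕ) : ℤ) - vl D ((k + 1 : ℕ) : ℤ)) ≤ A := by
  have h1 : vl D ((2 * M : ℕ) : ℤ) - vl D ((k + 1 : ℕ) : ℤ) =
      ((2 * M - (k + 1) : ℕ) : ℤ) - md (2 * M - (k + 1)) := by
    unfold vl md
    rw [Nat.cast_sub (by omega)]
    push_cast
    omega
  rw [h1]
  have h2 := ep_mirror (μ := μ) (2 * M - (k + 1)) (md (2 * M - (k + 1)))
  have h3 := hA (2 * M - (k + 1)) (by omega)
  unfold ep at h2 h3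
  unfold epp
  rw [h2]
  exact h3

lemma vl_bwd {M : ℕ} (hM : Even M) {D : ℤ} {A : ℝ} (hA : ∀ m ≤ 2 * M, ep μ m (md m) ≤ A) (k : ℕ) (hk : k < M) :
    epp μ 0 (M + (k + 1)) (vl D ((k + 1 : ℕ) : ℤ) - vl D (-(M : ℤ))) ≤ A := by
  obtain ⟨r, hr⟩ := hM
  have h1 : vl D ((k + 1 : ℕ) : ℤ) - vl D (-(M : ℤ)) = md (M + (k + 1)) := by
    unfold vl md
    push_cast
    omega
  rw [h1]
  exact hA (M + (k + 1)) (by omega)

/-- THE TUBE AROUND THE AXIS, free constants. -/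
theorem vert_tube (hμ : Pool.Agent.W_7d29a1_h47.EM μ) {M : ℕ} (hM : Even M) {D : ℤ} (hD : 0 < D) {A Y ε : ℝ}
    (hA0 : 0 < A) (hA : ∀ m ≤ 2 * M, ep μ m (md m) ≤ A)
    (x1 : (law μ).real {η | X μ 0 η 0 (2 * M) ((M : ℤ) + D) ≤ Y + 2 * A} ≤ ε)
    (x2 : (law μ).real {η | X μ 0 η 0 (2 * M) ((M : ℤ) - D) ≤ Y + 2 * A} ≤ ε)
    (hY : Real.log (2 * M) ≤ 2 * Y) :
    (law μ).real {η | ¬ W μ 0 η 0 M ((M : ℤ) / 2) ≤ WR μ 0 (Tb (vl (-D)) (vl D)) η 0 M ((M : ℤ) / 2) + 1} ≤ 8 * ε := by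
  obtain ⟨r, hr⟩ := id hM
  have e1 : vl D ((2 * M : ℕ) : ℤ) = (M : ℤ) + D := by unfold vl; push_cast; omega
  have e2 : vl (-D) ((2 * M : ℕ) : ℤ) = (M : ℤ) - D := by unfold vl; push_cast; omega
  have e3 : (M : ℤ) / 2 - vl D (-(M : ℤ)) = (M : ℤ) - D := by unfold vl; omega
  have e4 : (M : ℤ) / 2 - vl (-D) (-(M : ℤ)) = (M : ℤ) + D := by unfold vl; omega
  have q1 := hit_fwd (μ := μ) (s := 0) hμ (vl_line D) (n := M) (N := 2 * M) (by omega) (Y := Y) hA0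
    (vl_fwd (μ := μ) (D := D) hA)
  have q2 := hit_fwd (μ := μ) (s := 0) hμ (vl_line (-D)) (n := M) (N := 2 * M) (by omega) (Y := Y) hA0
    (vl_fwd (μ := μ) (D := -D) hA)
  have q3 := hit_bwd (μ := μ) (s := 0) hμ (vl_line D) (n := M) (M := M) (y := (M : ℤ) / 2) (Y := Y) hA0
    (vl_bwd (μ := μ) hM (D := D) hA)
  have q4 := hit_bwd (μ := μ) (s := 0) hμ (vl_line (-D)) (n := M) (M := M) (y := (M : ℤ) / 2) (Y := Y) hA0
    (vl_bwd (μ := μ) hM (D := -D) hA)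
  rw [e1] at q1
  rw [e2] at q2
  rw [e3, ← two_mul] at q3
  rw [e4, ← two_mul] at q4
  set P1 := {η : Env | ∃ k < M, Real.exp (-Y) ≤ W μ 0 η 0 (k + 1) (vl D ((k + 1 : ℕ) : ℤ))} with hP1
  set P2 := {η : Env | ∃ k < M, Real.exp (-Y) ≤ W μ 0 η 0 (k + 1) (vl (-D) ((k + 1 : ℕ) : ℤ))} with hP2
  set P3 := {η : Env | ∃ k < M, Real.exp (-Y) ≤ W μ 0 η (((k + 1 : ℕ) : ℤ), vl D ((k + 1 : ℕ) : ℤ)) (M - (k + 1))
    ((M : ℤ) / 2 - vl D ((k + 1 : ℕ) : ℤ))} with hP3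
  set P4 := {η : Env | ∃ k < M, Real.exp (-Y) ≤ W μ 0 η (((k + 1 : ℕ) : ℤ), vl (-D) ((k + 1 : ℕ) : ℤ)) (M - (k + 1))
    ((M : ℤ) / 2 - vl (-D) ((k + 1 : ℕ) : ℤ))} with hP4
  have hsub : {η | ¬ W μ 0 η 0 M ((M : ℤ) / 2) ≤ WR μ 0 (Tb (vl (-D)) (vl D)) η 0 M ((M : ℤ) / 2) + 1} ⊆
      ((P1 ∪ P2) ∪ P3) ∪ P4 := by
    intro η hη
    by_contra hc
    apply hη
    simp only [Set.mem_union, not_or] at hc
    obtain ⟨⟨⟨c1, c2⟩, c3⟩, c4⟩ := hc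
    have hs := tube_split (μ := μ) (s := 0) (vl_line (-D)) (vl_line D) (by unfold vl; simpa using hD)
      (by unfold vl; simpa using hD) η M ((M : ℤ) / 2)
    have key : ∀ E : ℤ, (¬ ∃ k < M, Real.exp (-Y) ≤ W μ 0 η 0 (k + 1) (vl E ((k + 1 : ℕ) : ℤ))) →
        (¬ ∃ k < M, Real.exp (-Y) ≤ W μ 0 η (((k + 1 : ℕ) : ℤ), vl E ((k + 1 : ℕ) : ℤ)) (M - (k + 1))
          ((M : ℤ) / 2 - vl E ((k + 1 : ℕ) : ℤ))) →
        ∑ k ∈ Finset.range M, W μ 0 η 0 (k + 1) (vl E ((k + 1 : ℕ) : ℤ)) *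
          W μ 0 η (((k + 1 : ℕ) : ℤ), vl E ((k + 1 : ℕ) : ℤ)) (M - (k + 1)) ((M : ℤ) / 2 - vl E ((k + 1 : ℕ) : ℤ)) ≤
        M * (Real.exp (-Y) * Real.exp (-Y)) := by
      intro E h1 h2
      push Not at h1 h2
      have h : ∀ k ∈ Finset.range M, W μ 0 η 0 (k + 1) (vl E ((k + 1 : ℕ) : ℤ)) *
          W μ 0 η (((k + 1 : ℕ) : ℤ), vl E ((k + 1 : ℕ) : ℤ)) (M - (k + 1)) ((M : ℤ) / 2 - vl E ((k + 1 : ℕ) : ℤ)) ≤
          Real.exp (-Y) * Real.exp (-Y) := by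
        intro k hk
        have hk' := Finset.mem_range.1 hk
        exact mul_le_mul (h1 k hk').le (h2 k hk').le (W_nonneg _ _ _ _) (Real.exp_pos _).le
      have h3 := Finset.sum_le_card_nsmul _ _ _ h
      rwa [Finset.card_range, nsmul_eq_mul] at h3
    have s1 := key D c1 c3
    have s2 := key (-D) c2 c4
    have s3 : 2 * (M : ℝ) * (Real.exp (-Y) * Real.exp (-Y)) ≤ 1 := by
      rcases Nat.eq_zero_or_pos M with h0 | h0
      · subst h0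
        simp
      · have hM0 : (0 : ℝ) < 2 * M := by positivity
        have e5 : 2 * (M : ℝ) * (Real.exp (-Y) * Real.exp (-Y)) = Real.exp (Real.log (2 * M) + (-Y + -Y)) := by
          rw [Real.exp_add, Real.exp_add, Real.exp_log hM0]
        rw [e5, ← Real.exp_zero]
        exact Real.exp_le_exp.2 (by linarith)
    linarith
  have h1 : (law μ).real {η | ¬ W μ 0 η 0 M ((M : ℤ) / 2) ≤ WR μ 0 (Tb (vl (-D)) (vl D)) η 0 M ((M : ℤ) / 2) + 1} ≤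
      (law μ).real (((P1 ∪ P2) ∪ P3) ∪ P4) := measureReal_mono hsub
  have h2 := measureReal_union_le (μ := law μ) ((P1 ∪ P2) ∪ P3) P4
  have h3 := measureReal_union_le (μ := law μ) (P1 ∪ P2) P3
  have h4 := measureReal_union_le (μ := law μ) P1 P2
  linarith

end Pool.Agent.W_7d29a1_h21g
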